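import Pool.Agent.H325.B

/-!
# Normal sets of elements of order three with `(x⁻¹ y) ^ 3 = 1`
-/

set_option autoImplicit false

namespace Pool.Agent.H325

open Pool.Agent.R669 (Sw.k Sw.cj)
open Pool.Agent.R669.Sw

universe u

variable {G : Type u} [Group G]

theorem mul_self_inv {x : G} (h : x ^ 3 = 1) : x * x = x⁻¹ := by
  rw [inv_eq h, pow_two]

/-- the triangle group `(3, 3, 3)` is metabelian -/
theorem tri {x y : G} (hx : x ^ 3 = 1) (hy : y ^ 3 = 1) (h : (x⁻¹ * y) ^ 3 = 1) :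
    Commute (x * y) (y * x) := by
  have h1 : y * x⁻¹ * y = x * y⁻¹ * x := by
    have h2 : x⁻¹ * (y * x⁻¹ * y) * (x⁻¹ * y) = 1 := by
      rw [← h]; simp only [pow_succ, pow_zero, one_mul, mul_assoc]
    calc y * x⁻¹ * y = x * (x⁻¹ * (y * x⁻¹ * y) * (x⁻¹ * y)) * (x⁻¹ * y)⁻¹ := by group
      _ = x * y⁻¹ * x := by rw [h2]; group
  show x * y * (y * x) = y * x * (x * y)
  calc x * y * (y * x) = x * (y * y) * x := by group
    _ = x * y⁻¹ * x := by rw [mul_self_inv hy]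
    _ = y * x⁻¹ * y := h1.symm
    _ = y * (x * x) * y := by rw [mul_self_inv hx]
    _ = y * x * (x * y) := by group

/-- the group `B(2, 3)` -/
theorem trick {p d : G} (hp : p ^ 3 = 1) (hd : d ^ 3 = 1) (h1 : (p * d) ^ 3 = 1)
    (h2 : (p⁻¹ * d) ^ 3 = 1) : Commute p (k p d) ∧ Commute d (k p d) := by
  have a1 : Commute (p⁻¹ * d) (d * p⁻¹) := by
    apply tri (cube_inv hp) hd
    rwa [inv_inv]
  have a2 : Commute (p * d) (d * p) := tri hp hd h2
  have b1 : Commute (p * d) (k p d) := by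
    have e : k p d = (d * p)⁻¹ * (p * d) := by unfold k; group
    rw [e]
    exact a2.inv_right.mul_right (Commute.refl _)
  have b2 : Commute (p⁻¹ * d) (k p d) := by
    have e : k p d = (cj ((d * p⁻¹)⁻¹ * (p⁻¹ * d)) p)⁻¹ := by unfold k Sw.cj; group
    have e' : p⁻¹ * d = cj (d * p⁻¹) p := by unfold Sw.cj; group
    rw [e]
    have := comm_cj ((Commute.refl (d * p⁻¹)).inv_right.mul_right a1.symm) p
    rw [← e'] at this
    exact this.inv_right
  have c1 : Commute (p ^ 2) (k p d) := by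
    have e : p ^ 2 = (p * d) * (p⁻¹ * d)⁻¹ := by rw [pow_two]; group
    rw [e]
    exact b1.mul_left b2.inv_left
  have c2 : Commute p (k p d) := sq_comm hp c1
  refine ⟨c2, ?_⟩
  have e : d = p⁻¹ * (p * d) := by group
  have := c2.inv_left.mul_left b1
  rwa [← e] at this

/-- the basic lemma -/
theorem lemB {z κ z' : G} (hκ : κ ^ 3 = 1) (hz : Commute κ z) (h0 : (z⁻¹ * z') ^ 3 = 1)
    (h1 : (κ * (z⁻¹ * z')) ^ 3 = 1) (h2 : (κ⁻¹ * (z⁻¹ * z')) ^ 3 = 1) :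
    Commute κ (cj κ z') ∧ cj κ (z'⁻¹ * z) = (κ * cj κ z')⁻¹ := by
  set v := z⁻¹ * z' with hv
  obtain ⟨c1, c2⟩ := trick hκ h0 h1 h2
  set w := k κ v with hw
  have e1 : cj κ v = κ * w := cj_eq κ v
  have e2 : cj κ v = cj κ z' := by
    rw [hv, ← cj_cj, cj_of_comm hz.inv_right]
  have e3 : cj κ (v ^ 2) = κ * w ^ 2 := by
    rw [pow_two, ← cj_cj, e1, cj_mul, e1, cj_of_comm c2.symm, pow_two, mul_assoc]
  have e4 : cj κ (v ^ 3) = κ * w ^ 3 := by
    rw [pow_succ, ← cj_cj, e3, cj_mul, e1, Pool.Agent.R669.Sw.cj_pow, cj_of_comm c2.symm,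
      mul_assoc, ← pow_succ']
  have w3 : w ^ 3 = 1 := by
    rw [h0, cj_one] at e4
    exact (mul_eq_left.1 e4.symm)
  have e5 : z'⁻¹ * z = v ^ 2 := by
    rw [← inv_eq h0, hv]; group
  refine ⟨?_, ?_⟩
  · rw [← e2, e1]
    exact (Commute.refl κ).mul_right c1
  · rw [e5, e3, ← e2, e1, ← inv_eq w3]
    have : κ * (κ * w) = w * κ⁻¹ := by
      rw [← mul_assoc, mul_self_inv hκ, c1.inv_left.eq]
    rw [this]
    group

/-- normal sets of elements of order three with `(x⁻¹ y) ^ 3 = 1` -/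
structure Cls (C : Set G) : Prop where
  cj : ∀ x ∈ C, ∀ g, Sw.cj x g ∈ C
  cube : ∀ x ∈ C, x ^ 3 = 1
  quo : ∀ x ∈ C, ∀ y ∈ C, (x⁻¹ * y) ^ 3 = 1

/-- central increments -/
structure VV (C : Set G) (p v : G) : Prop where
  p3 : p ^ 3 = 1
  c : Commute p v
  m0 : v ∈ C
  m1 : v * p ∈ C
  m2 : v * p⁻¹ ∈ C

theorem VV.cj {C : Set G} (hC : Cls C) {p v : G} (h : VV C p v) (g : G) :
    VV C (Sw.cj p g) (Sw.cj v g) :=
  ⟨cube_cj h.p3 g, comm_cj h.c g, hC.cj v h.m0 g, by rw [← cj_mul]; exact hC.cj _ h.m1 g,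
    by rw [← cj_inv, ← cj_mul]; exact hC.cj _ h.m2 g⟩

theorem VV.rel {C : Set G} (hC : Cls C) {p v : G} (h : VV C p v) {c : G} (hc : c ∈ C) :
    Commute p (Sw.cj p c) ∧ Sw.cj p (c⁻¹ * v) = (p * Sw.cj p c)⁻¹ := by
  apply lemB h.p3 h.c (hC.quo v h.m0 c hc)
  · have := hC.quo _ h.m2 c hc
    have e : (v * p⁻¹)⁻¹ * c = p * (v⁻¹ * c) := by group
    rwa [e] at this
  · have := hC.quo _ h.m1 c hc
    have e : (v * p)⁻¹ * c = p⁻¹ * (v⁻¹ * c) := by group
    rwa [e] at this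

theorem VV.comm {C : Set G} (hC : Cls C) {p v : G} (h : VV C p v) {c : G} (hc : c ∈ C) :
    Commute p (Sw.cj p c) := (h.rel hC hc).1

theorem VV.comm' {C : Set G} (hC : Cls C) {p v : G} (h : VV C p v) {c : G} (hc : c ∈ C) :
    Commute p (Sw.cj p c⁻¹) := by
  have := comm_cj (h.comm hC hc) c⁻¹
  rw [cj_cj, mul_inv_cancel, cj_one] at this
  exact this.symm

theorem VV.back {C : Set G} (hC : Cls C) {p v : G} (h : VV C p v) {c : G} (hc : c ∈ C) :
    Sw.cj (Sw.cj p c) v⁻¹ = p⁻¹ * (Sw.cj p c⁻¹)⁻¹ := by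
  have h1 := (h.rel hC hc).2
  have h2 : Sw.cj (p * Sw.cj p c)⁻¹ v⁻¹ = Sw.cj p c⁻¹ := by
    rw [← h1, cj_cj, mul_inv_cancel_right]
  rw [cj_inv, cj_mul, cj_of_comm h.c.inv_right] at h2
  rw [← h2, inv_inv, inv_mul_cancel_left]

theorem VV.e2 {C : Set G} (hC : Cls C) {p v : G} (h : VV C p v) {c c' : G} (hc : c ∈ C)
    (hc' : c' ∈ C) : Commute (Sw.cj p c) (p * Sw.cj p c' * Sw.cj p c'⁻¹) := by
  set f := Sw.cj p c'⁻¹ with hf
  have pf : Commute p f := h.comm' hC hc'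
  have h' : VV C p (Sw.cj v f) := by
    have := h.cj hC f
    rwa [cj_of_comm pf] at this
  have e1 : Sw.cj (Sw.cj p c) v⁻¹ = Sw.cj (Sw.cj p c) (Sw.cj v f)⁻¹ := by
    rw [h.back hC hc, h'.back hC hc]
  have e2 : Commute (Sw.cj p c) (v⁻¹ * Sw.cj v f) := by
    apply comm_of_cj
    rw [← cj_cj, e1, cj_cj, inv_mul_cancel, cj_one]
  have e3 : v⁻¹ * Sw.cj v f = (Sw.cj f v)⁻¹ * f := by unfold Sw.cj; group
  have e4 : Sw.cj f v = (p * Sw.cj p c')⁻¹ := by
    rw [hf, cj_cj, (h.rel hC hc').2]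
  rw [e3, e4, inv_inv] at e2
  exact e2

/-- the increments are left `3`-Engel elements -/
theorem VV.left {C : Set G} (hC : Cls C) {p v q w : G} (h : VV C p v) (h' : VV C q w) :
    Commute p (Sw.cj p q) := by
  have w3 : w ^ 3 = 1 := hC.cube w h'.m0
  have e1 := h.e2 hC h'.m1 h'.m0
  have a1 : Commute (Sw.cj p (w * q)) p := (h.comm hC h'.m1).symm
  have a2 : Commute (Sw.cj p (w * q)) (Sw.cj p w⁻¹) := by
    have b1 : Commute (Sw.cj p (w * q⁻¹)⁻¹) p := (h.comm' hC h'.m2).symm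
    have b2 := comm_cj b1 w⁻¹
    rw [cj_cj] at b2
    have e : (w * q⁻¹)⁻¹ * w⁻¹ = w * q := by
      have e1 : w⁻¹ * w⁻¹ = w := by
        rw [← mul_inv_rev, mul_self_inv w3, inv_inv]
      calc (w * q⁻¹)⁻¹ * w⁻¹ = q * (w⁻¹ * w⁻¹) := by group
        _ = q * w := by rw [e1]
        _ = w * q := h'.c.eq
    rwa [e] at b2
  have a3 : Commute (Sw.cj p (w * q)) (Sw.cj p w) := by
    have e : Sw.cj p w = p⁻¹ * (p * Sw.cj p w * Sw.cj p w⁻¹) * (Sw.cj p w⁻¹)⁻¹ := by group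
    rw [e]
    exact (a1.inv_right.mul_right e1).mul_right a2.inv_right
  have a4 := comm_cj a3 w⁻¹
  rw [cj_cj, cj_cj, mul_inv_cancel, cj_one] at a4
  have e : w * q * w⁻¹ = q := by rw [← h'.c.eq]; group
  rw [e] at a4
  exact a4.symm

/-- cubes of products of two elements of the set -/
theorem Cls.cubes {C : Set G} (hC : Cls C) {x y : G} (hx : x ∈ C) (hy : y ∈ C) :
    VV C ((x * y) ^ 3) x := by
  have x3 := hC.cube x hx
  have y3 := hC.cube y hy
  set s := x * y with hs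
  set s1 := y * x with hs1
  have c1 : Commute s s1 := tri x3 y3 (hC.quo x hx y hy)
  have e1 : Sw.cj s x = s1 := by rw [hs, hs1]; unfold Sw.cj; group
  set p := s ^ 3 with hp
  have kxy : (k x y) ^ 3 = 1 := by
    have := hC.quo x hx _ (hC.cj x hx y)
    rwa [← k_eq] at this
  have ek : k x y = s1⁻¹ * s := by rw [hs, hs1]; unfold k; group
  have e2 : s1 ^ 3 = p := by
    rw [ek, c1.symm.inv_left.mul_pow, inv_pow, inv_mul_eq_one] at kxy
    rw [kxy]
  have px : Commute p x := by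
    apply comm_of_cj
    rw [hp, Pool.Agent.R669.Sw.cj_pow, e1, e2]
  have ps : Commute p s := (Commute.refl s).pow_left 3
  have py : Commute p y := by
    have e : y = x⁻¹ * s := by rw [hs]; group
    rw [e]
    exact px.inv_right.mul_right ps
  set s2 := Sw.cj s1 x with hs2
  have e3 : s * s1 * s2 = 1 := by
    have h1 : s * s1 * s2 = x * (y * y) * (y * (x * x)) := by
      rw [hs2, hs1, hs]; unfold Sw.cj; group
    have h2 : x * (y * y) * (y * (x * x)) = x * (y * y * y) * (x * x) := by group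
    rw [h1, h2, mul_self_inv y3, inv_mul_cancel, mul_self_inv x3]
    group
  have e4 : s2 = (s * s1)⁻¹ := (inv_eq_of_mul_eq_one_right e3).symm
  have p3 : p ^ 3 = 1 := by
    have h1 : s2 ^ 3 = p := by
      rw [hs2, ← Pool.Agent.R669.Sw.cj_pow, e2, cj_of_comm px]
    have h2 : (s * s1) ^ 3 = p * p := by rw [c1.mul_pow, e2]
    rw [e4, inv_pow, h2] at h1
    calc p ^ 3 = p * p * p := by simp [pow_succ]
      _ = (p * p) * (p * p)⁻¹ := by rw [h1]
      _ = 1 := mul_inv_cancel _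
  have et : Sw.cj x (s ^ 2 * s1) = x * p := by
    have h1 : Sw.cj x (s ^ 2 * s1) = x * (Sw.cj (s ^ 2 * s1) x)⁻¹ * (s ^ 2 * s1) := by
      unfold Sw.cj; group
    have h2 : Sw.cj (s ^ 2 * s1) x = s1 ^ 2 * s2 := by
      rw [cj_mul, Pool.Agent.R669.Sw.cj_pow, e1]
    rw [h1, h2, e4]
    have h3 : (s1 ^ 2 * (s * s1)⁻¹)⁻¹ * (s ^ 2 * s1) = p := by
      have h4 : s1 ^ 2 * (s * s1)⁻¹ = s1 * s⁻¹ := by
        rw [mul_inv_rev, pow_two]; group
      rw [h4, hp]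
      calc (s1 * s⁻¹)⁻¹ * (s ^ 2 * s1) = s * (s1⁻¹ * s ^ 2) * s1 := by group
        _ = s * (s ^ 2 * s1⁻¹) * s1 := by rw [((c1.symm.inv_left).pow_right 2).eq]
        _ = s ^ 3 := by rw [pow_succ' s 2]; group
    rw [mul_assoc, h3]
  have m1 : x * p ∈ C := by rw [← et]; exact hC.cj x hx _
  have pt : Commute p (s ^ 2 * s1) :=
    (ps.pow_right 2).mul_right (py.mul_right px)
  have m2 : x * p⁻¹ ∈ C := by
    have h1 : Sw.cj (x * p) (s ^ 2 * s1) = x * p⁻¹ := by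
      rw [cj_mul, et, cj_of_comm pt, mul_assoc, mul_self_inv p3]
    rw [← h1]
    exact hC.cj _ m1 _
  exact ⟨p3, px, hx, m1, m2⟩

/-- cubes of products are left `3`-Engel elements -/
theorem Cls.left {C : Set G} (hC : Cls C) {x y : G} (hx : x ∈ C) (hy : y ∈ C) (g : G) :
    Commute ((x * y) ^ 3) (k ((x * y) ^ 3) (Sw.cj ((x * y) ^ 3) g)) := by
  have h := hC.cubes hx hy
  have h1 := h.left hC (h.cj hC g)
  rw [k_eq]
  exact (Commute.refl _).inv_right.mul_right h1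

end Pool.Agent.H325
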