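import Pool.Agent.H325.C

/-!
# Sandwich systems when commutators with elements of order three have order three: all thicknesses
-/

set_option autoImplicit false

namespace Pool.Agent.H325

open Pool.Agent.R669 (Sw.k Sw.cj)
open Pool.Agent.R669.Sw

universe u

variable {G : Type u} [Group G]

/-- the condition: if `a ^ 3 = 1`, then `[a, g] ^ 3 = 1` for all `g` -/
def HH (G : Type u) [Group G] : Prop := ∀ a : G, a ^ 3 = 1 → ∀ g : G, (k a g) ^ 3 = 1

section sys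

variable {X : Set G}

theorem Sys.cube_pair (hX : Sys X) {a b : G} (ha : a ∈ X) (hb : b ∈ X) : (a * b) ^ 3 = 1 := by
  have a3 := hX.cube a ha
  have b3 := hX.cube b hb
  set w := k b a with hw
  have wb : Commute b w := hX.l hb ha
  have wa : Commute a w := hX.r hb ha
  have w3 : w ^ 3 = 1 := hX.cube _ (hX.kc b hb a ha)
  have e0 : b * a = a * b * w := by rw [hw]; unfold k; group
  calc (a * b) ^ 3 = a * (b * a) * (b * a) * b := by simp [pow_succ, mul_assoc]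
    _ = a * (a * b * w) * (a * b * w) * b := by rw [e0]
    _ = a * a * b * (w * (a * b)) * (w * b) := by group
    _ = a * a * b * (a * b * w) * (b * w) := by
      rw [(wa.symm.mul_right wb.symm).eq, wb.symm.eq]
    _ = a * a * (b * a) * (b * (w * b) * w) := by group
    _ = a * a * (a * b * w) * (b * (b * w) * w) := by rw [e0, wb.symm.eq]
    _ = a * a * a * b * (w * (b * b)) * (w * w) := by group
    _ = a * a * a * b * (b * b * w) * (w * w) := by rw [(wb.symm.mul_right wb.symm).eq]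
    _ = a ^ 3 * b ^ 3 * w ^ 3 := by simp [pow_succ, mul_assoc]
    _ = 1 := by rw [a3, b3, w3]; simp

theorem r8a (hX : Sys X) {a b κ c T : G} (hκ : κ ∈ X) (hb : b ∈ X) (hc : c ∈ X) (hT : T ∈ X)
    (ka : Commute κ a) (kb : Commute κ b) (hP : Commute (k κ T) b) (hQ : Commute (k κ c) b)
    (hB : Sw.cj κ ((c * T)⁻¹ * (a * b)) = (κ * Sw.cj κ (c * T))⁻¹) :
    Sw.cj (k κ T * k κ c * (k (k κ T) c)⁻¹) a =
      k κ T * k κ c * k (k κ c) T * (k (k (k κ c) T) b)⁻¹ := by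
  have κ3 := hX.cube κ hκ
  set P := k κ T with hPd
  set Q := k κ c with hQd
  set u := k Q T with hu
  set t := k P c with ht
  have V := hX.v hκ hc hT
  have mP : P ∈ X := hX.kc _ hκ _ hT
  have mQ : Q ∈ X := hX.kc _ hκ _ hc
  have mu : u ∈ X := hX.kc _ mQ _ hT
  have QP : Commute Q P := V.ut
  have κP : Commute κ P := hX.l hκ hT
  have κQ : Commute κ Q := hX.l hκ hc
  have κu : Commute κ u := V.ps.symm
  have κt : Commute κ t := V.qs.symm
  have tQ : Commute t Q := comm_k V.qs V.qa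
  have tP : Commute t P := comm_k V.qs V.qd
  have uP : Commute u P := comm_k V.ps V.pd
  have uQ : Commute u Q := comm_k V.ps V.pa
  have PT : Commute T P := hX.r hκ hT
  have e1 : cj κ (c * T) = κ * P * (Q * u) := by
    rw [← cj_cj, cj_eq κ c, ← hQd, cj_mul, cj_eq κ T, ← hPd, cj_eq Q T, ← hu]
  have e2 : cj κ (c * T)⁻¹ = κ * (Q⁻¹ * (P * t⁻¹)⁻¹) := by
    rw [mul_inv_rev, ← cj_cj, hX.cj_inv_r hκ hT, ← hPd, cj_mul, cj_inv,
      hX.cj_inv_r hκ hc, ← hQd, hX.cj_inv_r mP hc, ← ht, mul_assoc]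
  rw [← cj_cj, e2, e1] at hB
  have kab : cj κ (a * b) = κ := cj_of_comm (ka.mul_right kb)
  rw [cj_mul, kab] at hB
  have e3 : (κ * (κ * P * (Q * u)))⁻¹ = κ * (P * Q * u)⁻¹ := by
    have h1 : Commute κ (P * Q * u) := (κP.mul_right κQ).mul_right κu
    calc (κ * (κ * P * (Q * u)))⁻¹ = (P * Q * u)⁻¹ * (κ * κ)⁻¹ := by group
      _ = (P * Q * u)⁻¹ * κ := by rw [mul_self_inv κ3, inv_inv]
      _ = κ * (P * Q * u)⁻¹ := (h1.inv_right).eq.symm
  rw [e3] at hB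
  have e4 := mul_left_cancel hB
  have e5 : cj (P * Q * t⁻¹) (a * b) = P * Q * u := by
    have h1 : (Q⁻¹ * (P * t⁻¹)⁻¹)⁻¹ = P * Q * t⁻¹ := by
      rw [mul_inv_rev, inv_inv, inv_inv, mul_assoc, (tQ.inv_left).eq, ← mul_assoc]
    rw [← h1, cj_inv, e4, inv_inv]
  rw [← cj_cj] at e5
  have e6 : cj (P * Q * t⁻¹) a = cj (P * Q * u) b⁻¹ := by
    rw [← e5, cj_cj, mul_inv_cancel, cj_one]
  rw [e6, cj_mul, cj_mul, cj_of_comm hP.inv_right, cj_of_comm hQ.inv_right,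
    hX.cj_inv_r mu hb]
  group

theorem r8b (hX : Sys X) (H : HH G) {a b l : G} (ha : a ∈ X) (hb : b ∈ X) (hl : l ∈ X)
    (c1 : Commute a l) (c2 : Commute a (k b l)) (g : G) :
    Sw.cj (k b l) ((Sw.cj a g * Sw.cj b g)⁻¹ * (a * b)) =
      (k b l * Sw.cj (k b l) (Sw.cj a g * Sw.cj b g))⁻¹ := by
  set κ := k b l with hκd
  have hκ : κ ∈ X := hX.kc _ hb _ hl
  have κ3 := hX.cube κ hκ
  have bκ : Commute b κ := hX.l hb hl
  have lκ : Commute l κ := hX.r hb hl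
  have z3 : (a * b) ^ 3 = 1 := hX.cube_pair ha hb
  have Hz := H _ z3
  have e1 : cj (a * b) l = a * b * κ := by
    rw [cj_mul, cj_of_comm c1, cj_eq b l, ← hκd, mul_assoc]
  have e2 : cj (a * b) l⁻¹ = a * b * κ⁻¹ := by
    rw [cj_mul, cj_of_comm c1.inv_right, hX.cj_inv_r hb hl, ← hκd, mul_assoc]
  have e3 : cj (a * b) g = Sw.cj a g * Sw.cj b g := cj_mul a b g
  rw [← e3]
  refine (lemB κ3 (c2.symm.mul_right bκ.symm) ?_ ?_ ?_).2
  · rw [← k_eq]; exact Hz g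
  · have e : κ * ((a * b)⁻¹ * cj (a * b) g) = cj (k (a * b) (g * l)) l⁻¹ := by
      have h1 : κ * (a * b)⁻¹ = (cj (a * b) l⁻¹)⁻¹ := by rw [e2]; group
      rw [← mul_assoc, h1, k_eq (a * b) (g * l), cj_mul (a * b)⁻¹, cj_inv, cj_cj,
        mul_inv_cancel_right]
    rw [e]
    exact cube_cj (Hz _) _
  · have e : κ⁻¹ * ((a * b)⁻¹ * cj (a * b) g) = cj (k (a * b) (g * l⁻¹)) l := by
      have h1 : κ⁻¹ * (a * b)⁻¹ = (cj (a * b) l)⁻¹ := by rw [e1]; group
      rw [← mul_assoc, h1, k_eq (a * b) (g * l⁻¹), cj_mul (a * b)⁻¹, cj_inv, cj_cj,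
        inv_mul_cancel_right]
    rw [e]
    exact cube_cj (Hz _) _

theorem r8c (hX : Sys X) (H : HH G) {a b l : G} (ha : a ∈ X) (hb : b ∈ X) (hl : l ∈ X)
    (c1 : Commute a l) (c2 : Commute a (k b l)) (g : G) :
    Sw.cj (k (k b l) (Sw.cj b g) * k (k b l) (Sw.cj a g) *
      (k (k (k b l) (Sw.cj b g)) (Sw.cj a g))⁻¹) a =
      k (k b l) (Sw.cj b g) * k (k b l) (Sw.cj a g) * k (k (k b l) (Sw.cj a g)) (Sw.cj b g) *
        (k (k (k (k b l) (Sw.cj a g)) (Sw.cj b g)) b)⁻¹ :=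
  r8a hX (hX.kc _ hb _ hl) hb (hX.cj ha g) (hX.cj hb g) c2.symm (hX.l hb hl).symm
    (hX.v hb hl (hX.cj hb g)).ps (hX.v hb hl (hX.cj ha g)).ps (r8b hX H ha hb hl c1 c2 g)

theorem r8 (hX : Sys X) (H : HH G) {a b l : G} (ha : a ∈ X) (hb : b ∈ X) (hl : l ∈ X)
    (c1 : Commute a l) (c2 : Commute a (k b l)) (g : G) :
    Commute a (k (k b l) (Sw.cj a g)) := by
  have R1 := r8c hX H ha hb hl c1 c2 g
  have R2 := r8c hX H (hX.inv a ha) hb hl c1.inv_left c2.inv_left g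
  have hbl : k b⁻¹ l⁻¹ = k b l := by
    rw [hX.k_inv_l hb (hX.inv l hl), hX.k_inv_r hb hl, inv_inv]
  have c2' : Commute a (k b⁻¹ l⁻¹) := by rw [hbl]; exact c2
  have R3 := r8c hX H ha (hX.inv b hb) (hX.inv l hl) c1.inv_right c2' g
  have R4 := r8c hX H (hX.inv a ha) (hX.inv b hb) (hX.inv l hl) c1.inv_inv c2'.inv_left g
  rw [hbl] at R3 R4
  simp only [cj_inv] at R2 R3 R4
  set κ := k b l with hκd
  set c := Sw.cj a g with hcd
  set T := Sw.cj b g with hTd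
  have hκ : κ ∈ X := hX.kc _ hb _ hl
  have hc : c ∈ X := hX.cj ha g
  have hT : T ∈ X := hX.cj hb g
  have hci := hX.inv c hc
  have hTi := hX.inv T hT
  rw [hX.k_inv_r hκ hc] at R2 R4
  rw [hX.k_inv_r hκ hT] at R3 R4
  set P := k κ T with hPd
  set Q := k κ c with hQd
  have mP : P ∈ X := hX.kc _ hκ _ hT
  have mQ : Q ∈ X := hX.kc _ hκ _ hc
  rw [hX.k_inv_r mP hc, hX.k_inv_l mQ hT] at R2
  rw [hX.k_inv_l mP hc, hX.k_inv_r mQ hT] at R3
  rw [hX.k_inv_l mP hci, hX.k_inv_r mP hc, hX.k_inv_l mQ hTi, hX.k_inv_r mQ hT] at R4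
  set u := k Q T with hu
  set t := k P c with ht
  have mu : u ∈ X := hX.kc _ mQ _ hT
  have mt : t ∈ X := hX.kc _ mP _ hc
  rw [hX.k_inv_l mu hb] at R2
  rw [hX.k_inv_l mu (hX.inv b hb), hX.k_inv_r mu hb] at R3
  simp only [inv_inv] at R2 R3 R4
  rw [hX.k_inv_r mu hb] at R4
  simp only [inv_inv] at R4
  set f := k u b with hf
  -- commutations
  have V := hX.v hκ hc hT
  have QP : Commute Q P := V.ut
  have tQ : Commute t Q := comm_k V.qs V.qa
  have tP : Commute t P := comm_k V.qs V.qd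
  have uP : Commute u P := comm_k V.ps V.pd
  have uQ : Commute u Q := comm_k V.ps V.pa
  have bP : Commute P b := (hX.v hb hl hT).ps
  have bQ : Commute Q b := (hX.v hb hl hc).ps
  have fP : Commute P f := comm_k uP.symm bP
  have fQ : Commute Q f := comm_k uQ.symm bQ
  have fu : Commute u f := hX.l mu hb
  -- the two squares
  have S1 : cj (Q * Q) a = Q * Q * (f⁻¹ * f⁻¹) := by
    have h1 : cj (P * Q * t⁻¹ * (P⁻¹ * Q * t)) a =
        P * Q * u * f⁻¹ * (P⁻¹ * Q * u⁻¹ * f⁻¹) := by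
      rw [cj_mul, R1, R3]
    have h2 : P * Q * t⁻¹ * (P⁻¹ * Q * t) = Q * Q := by
      calc P * Q * t⁻¹ * (P⁻¹ * Q * t) = P * Q * (t⁻¹ * (P⁻¹ * Q)) * t := by group
        _ = P * Q * ((P⁻¹ * Q) * t⁻¹) * t := by
          rw [((tP.inv_inv).mul_right (tQ.inv_left)).eq]
        _ = P * (Q * P⁻¹) * Q := by group
        _ = P * (P⁻¹ * Q) * Q := by rw [(QP.inv_right).eq]
        _ = Q * Q := by group
    have h3 : P * Q * u * f⁻¹ * (P⁻¹ * Q * u⁻¹ * f⁻¹) = Q * Q * (f⁻¹ * f⁻¹) := by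
      calc P * Q * u * f⁻¹ * (P⁻¹ * Q * u⁻¹ * f⁻¹)
          = P * Q * u * (f⁻¹ * (P⁻¹ * Q * u⁻¹)) * f⁻¹ := by group
        _ = P * Q * u * ((P⁻¹ * Q * u⁻¹) * f⁻¹) * f⁻¹ := by
          rw [(((fP.inv_left.mul_left fQ).mul_left fu.inv_left).inv_right).eq]
        _ = P * Q * (u * (P⁻¹ * Q)) * u⁻¹ * (f⁻¹ * f⁻¹) := by group
        _ = P * Q * ((P⁻¹ * Q) * u) * u⁻¹ * (f⁻¹ * f⁻¹) := by
          rw [(uP.inv_right.mul_right uQ).eq]
        _ = P * (Q * P⁻¹) * Q * (f⁻¹ * f⁻¹) := by group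
        _ = P * (P⁻¹ * Q) * Q * (f⁻¹ * f⁻¹) := by rw [(QP.inv_right).eq]
        _ = Q * Q * (f⁻¹ * f⁻¹) := by group
    rw [h2, h3] at h1
    exact h1
  have S2 : cj (Q * Q) a⁻¹ = Q * Q * (f⁻¹ * f⁻¹) := by
    have h1 : cj (P * Q⁻¹ * t * (P⁻¹ * Q⁻¹ * t⁻¹)) a⁻¹ =
        P * Q⁻¹ * u⁻¹ * f * (P⁻¹ * Q⁻¹ * u * f) := by
      rw [cj_mul, R2, R4]
    have h2 : P * Q⁻¹ * t * (P⁻¹ * Q⁻¹ * t⁻¹) = (Q * Q)⁻¹ := by
      calc P * Q⁻¹ * t * (P⁻¹ * Q⁻¹ * t⁻¹) = P * Q⁻¹ * (t * (P⁻¹ * Q⁻¹)) * t⁻¹ := by group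
        _ = P * Q⁻¹ * ((P⁻¹ * Q⁻¹) * t) * t⁻¹ := by
          rw [((tP.inv_right).mul_right (tQ.inv_right)).eq]
        _ = P * (Q⁻¹ * P⁻¹) * Q⁻¹ := by group
        _ = P * (P⁻¹ * Q⁻¹) * Q⁻¹ := by rw [(QP.inv_inv).eq]
        _ = (Q * Q)⁻¹ := by group
    have h3 : P * Q⁻¹ * u⁻¹ * f * (P⁻¹ * Q⁻¹ * u * f) = (Q * Q * (f⁻¹ * f⁻¹))⁻¹ := by
      calc P * Q⁻¹ * u⁻¹ * f * (P⁻¹ * Q⁻¹ * u * f)
          = P * Q⁻¹ * u⁻¹ * (f * (P⁻¹ * Q⁻¹ * u)) * f := by group
        _ = P * Q⁻¹ * u⁻¹ * ((P⁻¹ * Q⁻¹ * u) * f) * f := by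
          rw [(((fP.inv_left.mul_left fQ.inv_left).mul_left fu)).eq]
        _ = P * Q⁻¹ * (u⁻¹ * (P⁻¹ * Q⁻¹)) * u * (f * f) := by group
        _ = P * Q⁻¹ * ((P⁻¹ * Q⁻¹) * u⁻¹) * u * (f * f) := by
          rw [((uP.inv_right.mul_right uQ.inv_right).inv_left).eq]
        _ = P * (Q⁻¹ * P⁻¹) * (Q⁻¹ * (f * f)) := by group
        _ = P * (P⁻¹ * Q⁻¹) * ((f * f) * Q⁻¹) := by
          rw [(QP.inv_inv).eq, ((fQ.mul_right fQ).inv_left).eq]
        _ = Q⁻¹ * (f * f) * Q⁻¹ := by group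
        _ = (f * f) * Q⁻¹ * Q⁻¹ := by rw [((fQ.mul_right fQ).inv_left).eq]
        _ = (Q * Q * (f⁻¹ * f⁻¹))⁻¹ := by simp only [mul_inv_rev, inv_inv, mul_assoc]
    rw [h2, h3, cj_inv] at h1
    exact inv_injective h1
  have e1 : cj (Q * Q) (a * a) = Q * Q := by
    rw [← cj_cj, S1, ← S2, cj_cj, inv_mul_cancel, cj_one]
  have e2 : Commute (Q ^ 2) (a ^ 2) := by
    rw [pow_two, pow_two]
    exact comm_of_cj e1
  have e3 : Commute Q (a ^ 2) := sq_comm (hX.cube Q mQ) e2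
  exact sq_comm (hX.cube a ha) e3.symm

end sys

/-- products of at most `n` elements -/
def W (X : Set G) : ℕ → Set G
  | 0 => {1}
  | n + 1 => {g | g ∈ W X n ∨ ∃ w ∈ W X n, ∃ x ∈ X, g = w * x}

theorem W.one (X : Set G) (n : ℕ) : (1 : G) ∈ W X n := by
  induction n with
  | zero => exact rfl
  | succ n ih => exact Or.inl ih

theorem W.cj {X : Set G} (hX : ∀ x ∈ X, ∀ g, Sw.cj x g ∈ X) (n : ℕ) :
    ∀ w ∈ W X n, ∀ g, Sw.cj w g ∈ W X n := by
  induction n with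
  | zero =>
    rintro w hw g
    have hw' : w = 1 := hw
    rw [hw']
    show Sw.cj (1 : G) g = 1
    simp [Sw.cj]
  | succ n ih =>
    rintro w (hw | ⟨w, hw, x, hx, rfl⟩) g
    · exact Or.inl (ih w hw g)
    · exact Or.inr ⟨Sw.cj w g, ih w hw g, Sw.cj x g, hX x hx g, cj_mul w x g⟩

theorem W.mul {X : Set G} (m n : ℕ) : ∀ w ∈ W X m, ∀ w' ∈ W X n, w * w' ∈ W X (m + n) := by
  induction n with
  | zero =>
    rintro w hw w' hw'
    have e : w' = 1 := hw'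
    rw [e, mul_one]
    exact hw
  | succ n ih =>
    rintro w hw w' (hw' | ⟨w', hw', x, hx, rfl⟩)
    · exact Or.inl (ih w hw w' hw')
    · exact Or.inr ⟨w * w', ih w hw w' hw', x, hx, (mul_assoc _ _ _).symm⟩

theorem W.inv {X : Set G} (hX : ∀ x ∈ X, x⁻¹ ∈ X) (n : ℕ) : ∀ w ∈ W X n, ∃ m, w⁻¹ ∈ W X m := by
  induction n with
  | zero =>
    rintro w hw
    have e : w = 1 := hw
    exact ⟨0, by rw [e, inv_one]; rfl⟩
  | succ n ih =>
    rintro w (hw | ⟨w, hw, x, hx, rfl⟩)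
    · exact ih w hw
    · obtain ⟨m, hm⟩ := ih w hw
      refine ⟨1 + m, ?_⟩
      rw [mul_inv_rev]
      exact W.mul 1 m _ (Or.inr ⟨1, rfl, x⁻¹, hX x hx, (one_mul _).symm⟩) _ hm

theorem W.closure {X : Set G} (hX : ∀ x ∈ X, x⁻¹ ∈ X) {g : G} (hg : g ∈ Subgroup.closure X) :
    ∃ n, g ∈ W X n := by
  induction hg using Subgroup.closure_induction with
  | mem x hx => exact ⟨1, Or.inr ⟨1, rfl, x, hx, (one_mul _).symm⟩⟩
  | one => exact ⟨0, rfl⟩
  | mul x y _ _ h1 h2 =>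
    obtain ⟨m, hm⟩ := h1
    obtain ⟨n, hn⟩ := h2
    exact ⟨m + n, W.mul m n x hm y hn⟩
  | inv x _ h1 =>
    obtain ⟨m, hm⟩ := h1
    exact W.inv hX m x hm

/-- the set `C ∪ C⁻¹` -/
def Pm (C : Set G) : Set G := {x | x ∈ C ∨ x⁻¹ ∈ C}

/-- all conjugates by products of elements of the system commute -/
theorem thick (H : HH G) {C : Set G} (hX : Sys (Gen (Pm C)))
    (hC : ∀ x ∈ C, ∀ g, Sw.cj x g ∈ C)
    (hCC : ∀ x ∈ C, ∀ y ∈ C, ∃ g, y = Sw.cj x g) (n : ℕ) :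
    ∀ a ∈ C, ∀ w ∈ W (Gen (Pm C)) n, Commute a (Sw.cj a w) := by
  have hCX : ∀ x ∈ C, x ∈ Gen (Pm C) := fun x hx => Gen.sub _ (Or.inl hx)
  have hcj : ∀ x ∈ Gen (Pm C), ∀ g, Sw.cj x g ∈ Gen (Pm C) := fun x hx g => hX.cj hx g
  induction n using Nat.strong_induction_on with
  | _ n ih =>
    match n, ih with
    | 0, _ =>
      intro a ha w hw
      have e : w = 1 := hw
      rw [e, cj_one]
    | 1, ih =>
      rintro a ha w (hw | ⟨w, hw, x, hx, rfl⟩)
      · exact ih 0 (by omega) a ha w hw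
      · have e : w = 1 := hw
        rw [e, one_mul, cj_eq]
        exact (Commute.refl a).mul_right (hX.l (hCX a ha) hx)
    | n + 2, ih =>
      -- the last letter
      have key : ∀ x ∈ Gen (Pm C), ∀ a ∈ C, ∀ w ∈ W (Gen (Pm C)) n, ∀ b ∈ Gen (Pm C),
          Commute a (k (k (Sw.cj a w) b) x) := by
        apply Gen.ind
        · have base : ∀ x ∈ C, ∀ a ∈ C, ∀ w ∈ W (Gen (Pm C)) n, ∀ b ∈ Gen (Pm C),
              Commute a (k (k (Sw.cj a w) b) x) := by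
            intro x hx a ha w hw b hb
            obtain ⟨g, rfl⟩ := hCC a ha x hx
            have hl : Sw.cj a w ∈ Gen (Pm C) := hX.cj (hCX a ha) w
            have c1 : Commute a (Sw.cj a w) := ih n (by omega) a ha w hw
            have c0 : Commute a (Sw.cj a (w * b)) :=
              ih (n + 1) (by omega) a ha _ (Or.inr ⟨w, hw, b, hb, rfl⟩)
            have c2 : Commute a (k (Sw.cj a w) b) := by
              rw [k_eq, cj_cj]
              exact c1.inv_right.mul_right c0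
            have c3 : Commute a (k b (Sw.cj a w)) := by
              rw [← k_inv]
              exact c2.inv_right
            have := r8 hX H (hCX a ha) hb hl c1 c3 g
            rw [← k_inv (Sw.cj a w) b, hX.k_inv_l (hX.kc _ hl _ hb) (hX.cj (hCX a ha) g)] at this
            simpa using this.inv_right
          rintro x (hx | hx)
          · exact base x hx
          · intro a ha w hw b hb
            have h1 := base x⁻¹ hx a ha w hw b hb
            have hl : Sw.cj a w ∈ Gen (Pm C) := hX.cj (hCX a ha) w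
            have hx' : x ∈ Gen (Pm C) := Gen.sub _ (Or.inr hx)
            rw [hX.k_inv_r (hX.kc _ hl _ hb) hx'] at h1
            simpa using h1.inv_right
        · intro x hx y hy h a ha w hw b hb
          have hl : Sw.cj a w ∈ Gen (Pm C) := hX.cj (hCX a ha) w
          have he := hX.kc _ hl _ hb
          have h1 : Commute a (k (k (Sw.cj a w) b) (Sw.cj x y)) := by
            have h2 := h (Sw.cj a y⁻¹) (hC a ha _) (Sw.cj w y⁻¹) (W.cj hcj n w hw _)
              (Sw.cj b y⁻¹) (hcj b hb _)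
            have h3 := comm_cj h2 y
            rw [cj_cj, inv_mul_cancel, cj_one, cj_k, cj_k, cj_cj, cj_cj b, inv_mul_cancel,
              cj_one] at h3
            have e : y⁻¹ * Sw.cj w y⁻¹ * y = w * y⁻¹ * y := by unfold Sw.cj; group
            rw [cj_cj, ← mul_assoc, e, inv_mul_cancel_right] at h3
            exact h3
          have h4 := h a ha w hw b hb
          rw [cj_eq x y, (Ad.of_cj hX hx hy).k_right hX he] at h1
          have h5 := h4.inv_right.mul_right h1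
          rwa [inv_mul_cancel_left] at h5
      rintro a ha w (hw | ⟨w, hw, x, hx, rfl⟩)
      · exact ih (n + 1) (by omega) a ha w hw
      · rcases hw with hw | ⟨w, hw, b, hb, rfl⟩
        · exact ih (n + 1) (by omega) a ha _ (Or.inr ⟨w, hw, x, hx, rfl⟩)
        · have h1 := key x hx a ha w hw b hb
          have c0 : Commute a (Sw.cj a (w * x)) :=
            ih (n + 1) (by omega) a ha _ (Or.inr ⟨w, hw, x, hx, rfl⟩)
          have c1 : Commute a (Sw.cj a w) := ih n (by omega) a ha w hw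
          have c2 : Commute a (Sw.cj a (w * b)) :=
            ih (n + 1) (by omega) a ha _ (Or.inr ⟨w, hw, b, hb, rfl⟩)
          have c3 : Commute a (k (Sw.cj a w) b) := by
            rw [k_eq, cj_cj]
            exact c1.inv_right.mul_right c2
          have e : Sw.cj a (w * b * x) =
              Sw.cj a (w * x) * (k (Sw.cj a w) b * k (k (Sw.cj a w) b) x) := by
            rw [← cj_cj, ← cj_cj a w b, cj_eq (Sw.cj a w) b, cj_mul, cj_cj,
              cj_eq (k (Sw.cj a w) b) x]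
          rw [e]
          exact c0.mul_right (c3.mul_right h1)

end Pool.Agent.H325
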