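import Pool.Agent.H325.D

/-!
# Left `3`-Engel elements of order three whose commutators are again left `3`-Engel elements
-/

set_option autoImplicit false

namespace Pool.Agent.H325

open Pool.Agent.R669 (Sw.k Sw.cj)
open Pool.Agent.R669.Sw

universe u

variable {G : Type u} [Group G]

section sys

variable {X : Set G}

/-- elements of a system commute with their conjugates by products of two elements -/
theorem Sys.two' (hX : Sys X) {a x y : G} (ha : a ∈ X) (hx : x ∈ X) (hy : y ∈ X) :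
    Commute a (Sw.cj a (x * y)) := by
  rw [← cj_cj, cj_eq a x, cj_mul, cj_eq a y, cj_eq (k a x) y]
  exact ((Commute.refl a).mul_right (hX.l ha hy)).mul_right
    ((hX.l ha hx).mul_right (hX.v ha hx hy).ps.symm)

theorem st11 (hX : Sys X) {A B z' : G} (hA : A ∈ X) (hB : B ∈ X)
    (cA : Commute A (Sw.cj A z')) (cB : Commute B (Sw.cj B z'))
    (h : Commute (A * B) (Sw.cj (A * B) z')) :
    k B (Sw.cj A z') = k (Sw.cj B z') A := by
  rw [cj_mul] at h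
  set A1 := Sw.cj A z' with hA1
  set B1 := Sw.cj B z' with hB1
  have mA1 : A1 ∈ X := hX.cj hA z'
  have mB1 : B1 ∈ X := hX.cj hB z'
  have e1 : B * A1 = A1 * (k B A1 * B) := by
    rw [← (hX.l hB mA1).eq]; unfold k; group
  have e2 : B1 * A = A * (k B1 A * B1) := by
    rw [← (hX.l mB1 hA).eq]; unfold k; group
  have h1 : A * A1 * k B A1 * (B * B1) = A * A1 * k B1 A * (B * B1) := by
    calc A * A1 * k B A1 * (B * B1) = A * (A1 * (k B A1 * B)) * B1 := by group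
      _ = A * B * (A1 * B1) := by rw [← e1]; group
      _ = A1 * B1 * (A * B) := h.eq
      _ = A1 * (B1 * A) * B := by group
      _ = A1 * A * k B1 A * (B1 * B) := by rw [e2]; group
      _ = A * A1 * k B1 A * (B * B1) := by rw [cA.eq, cB.eq]
  exact mul_left_cancel (mul_right_cancel h1)

theorem st14 (hX : Sys X) {A y η η' w : G} (hA : A ∈ X) (hη' : η' ∈ X)
    (a1 : Ad X y η) (a2 : Ad X y η⁻¹)
    (q0 : k y (Sw.cj A w) = k (Sw.cj y w) A)
    (q1 : k (y * η) (Sw.cj A (w * η')) = k (Sw.cj (y * η) (w * η')) A)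
    (q2 : k (y * η⁻¹) (Sw.cj A (w * η'⁻¹)) = k (Sw.cj (y * η⁻¹) (w * η'⁻¹)) A) :
    k η (k (Sw.cj A w) η') = k (k (Sw.cj η w) η') A := by
  have hy := a1.mw
  have hη := a1.mg
  have d1 := a1.cj hX (w * η')
  have d2 := a2.cj hX (w * η'⁻¹)
  rw [← cj_cj, ← cj_cj (y * η)] at q1
  rw [← cj_cj, ← cj_cj (y * η⁻¹)] at q2
  rw [← cj_cj, ← cj_cj] at d1 d2
  have ye1 : Sw.cj (y * η) w = Sw.cj y w * Sw.cj η w := cj_mul _ _ _
  have ye2 : Sw.cj (y * η⁻¹) w = Sw.cj y w * (Sw.cj η w)⁻¹ := by rw [cj_mul, cj_inv]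
  rw [cj_inv] at d2
  set e := Sw.cj A w with he
  set Y := Sw.cj y w with hY
  set N := Sw.cj η w with hN
  have me : e ∈ X := hX.cj hA w
  have mY : Y ∈ X := hX.cj hy w
  have mN : N ∈ X := hX.cj hη w
  set ε := k e η' with hε
  set μ := k Y η' with hμ
  set ν := k N η' with hν
  have mε : ε ∈ X := hX.kc _ me _ hη'
  have mμ : μ ∈ X := hX.kc _ mY _ hη'
  have mν : ν ∈ X := hX.kc _ mN _ hη'
  have b1 : Ad X e ε := Ad.of_cj hX me hη'
  have b2 : Ad X e ε⁻¹ := Ad.of_cj' hX me hη'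
  have cY : Ad X Y μ := Ad.of_cj hX mY hη'
  have cY' : Ad X Y μ⁻¹ := Ad.of_cj' hX mY hη'
  have cN : Ad X N ν := Ad.of_cj hX mN hη'
  have cN' : Ad X N ν⁻¹ := Ad.of_cj' hX mN hη'
  have f1 : Sw.cj e η' = e * ε := cj_eq _ _
  have f2 : Sw.cj e η'⁻¹ = e * ε⁻¹ := hX.cj_inv_r me hη'
  have g1 : Sw.cj Y η' = Y * μ := cj_eq _ _
  have g2 : Sw.cj Y η'⁻¹ = Y * μ⁻¹ := hX.cj_inv_r mY hη'
  have g3 : Sw.cj N η' = N * ν := cj_eq _ _
  have g4 : Sw.cj N η'⁻¹ = N * ν⁻¹ := hX.cj_inv_r mN hη'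
  rw [g1, g3] at d1
  rw [g2, cj_inv, g4] at d2
  rw [f1, ye1, cj_mul, g1, g3, a1.k_left hX b1.mp, b1.k_right hX hy, b1.k_right hX hη,
    d1.k_left hX hA, cY.k_left hX hA, cN.k_left hX hA] at q1
  rw [f2, ye2, cj_mul, cj_inv, g2, g4, a2.k_left hX b2.mp, b2.k_right hX hy,
    b2.k_right hX a2.mg, d2.k_left hX hA, cY'.k_left hX hA, hX.k_inv_l cN'.mp hA,
    cN'.k_left hX hA, hX.k_inv_r hy mε, hX.k_inv_l hη me, hX.k_inv_r a2.mg mε,
    hX.k_inv_l hη mε, inv_inv, hX.k_inv_l mμ hA, hX.k_inv_l mν hA, mul_inv_rev, inv_inv] at q2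
  -- commutations
  have E12 : Commute (k y ε) (k η ε) := (a1.kl hX mε).mc
  have E11 : Commute (k y ε) (k η e) :=
    comm_k (a1.comm_l hX mε) (b1.symm.comm_r hX hy)
  have E1'2 : Commute (k η e) (k η ε) := hX.kk hη me mε
  have A11 : Commute (k μ A) (k N A) := hX.kk' hA mμ mN
  have A12 : Commute (k μ A) (k ν A) := hX.kk' hA mμ mν
  have A1'2 : Commute (k N A) (k ν A) := hX.kk' hA mN mν
  rw [q0, mul_assoc, mul_assoc] at q1
  rw [q0, mul_assoc, mul_assoc] at q2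
  have r1 := mul_left_cancel q1
  have r2 := mul_left_cancel q2
  have s1 : (k y ε * (k η e * k η ε)) * ((k y ε)⁻¹ * ((k η e)⁻¹ * k η ε)) = k η ε ^ 2 := by
    calc (k y ε * (k η e * k η ε)) * ((k y ε)⁻¹ * ((k η e)⁻¹ * k η ε))
        = k y ε * ((k η e * k η ε) * (k y ε)⁻¹) * ((k η e)⁻¹ * k η ε) := by group
      _ = k y ε * ((k y ε)⁻¹ * (k η e * k η ε)) * ((k η e)⁻¹ * k η ε) := by
        rw [((E11.mul_right E12).inv_left.symm).eq]
      _ = k η e * (k η ε * (k η e)⁻¹) * k η ε := by group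
      _ = k η e * ((k η e)⁻¹ * k η ε) * k η ε := by rw [(E1'2.inv_left.symm).eq]
      _ = k η ε ^ 2 := by rw [pow_two]; group
  have s2 : (k μ A * (k N A * k ν A)) * ((k μ A)⁻¹ * (k ν A * (k N A)⁻¹)) = k ν A ^ 2 := by
    calc (k μ A * (k N A * k ν A)) * ((k μ A)⁻¹ * (k ν A * (k N A)⁻¹))
        = k μ A * ((k N A * k ν A) * (k μ A)⁻¹) * (k ν A * (k N A)⁻¹) := by group
      _ = k μ A * ((k μ A)⁻¹ * (k N A * k ν A)) * (k ν A * (k N A)⁻¹) := by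
        rw [((A11.mul_right A12).inv_left.symm).eq]
      _ = k N A * (k ν A * (k ν A * (k N A)⁻¹)) := by group
      _ = k N A * (k ν A * ((k N A)⁻¹ * k ν A)) := by rw [(A1'2.inv_left.symm).eq]
      _ = k N A * (k ν A * (k N A)⁻¹) * k ν A := by group
      _ = k N A * ((k N A)⁻¹ * k ν A) * k ν A := by rw [(A1'2.inv_left.symm).eq]
      _ = k ν A ^ 2 := by rw [pow_two]; group
  have s3 : k η ε ^ 2 = k ν A ^ 2 := by
    rw [← s1, ← s2, r1, r2]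
  exact sq_inj (hX.cube _ (hX.kc _ hη _ mε)) (hX.cube _ (hX.kc _ mν _ hA)) s3

theorem st15a (hX : Sys X) {A η A' y' η' : G} (hA : A ∈ X) (hη : η ∈ X) (hA' : A' ∈ X)
    (a' : Ad X y' η')
    (h : k η (k (Sw.cj A (A' * y')) η') = k (k (Sw.cj η (A' * y')) η') A) :
    k η (k A η') * k η (k (k A A') η') = k (k η η') A * k (k (k η A') η') A := by
  have key : ∀ s ∈ X, k (Sw.cj s (A' * y')) η' = k s η' * k (k s A') η' := by
    intro s hs
    have m1 := hX.cj hs A'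
    rw [← cj_cj, cj_eq (Sw.cj s A') y', (Ad.of_cj hX m1 a'.mw).k_left hX a'.mg,
      k_eq_one.2 (a'.comm_r hX m1), mul_one, cj_eq s A', (Ad.of_cj hX hs hA').k_left hX a'.mg]
  rw [key A hA, key η hη, ((Ad.of_cj hX hA hA').kl hX a'.mg).k_right hX hη,
    ((Ad.of_cj hX hη hA').kl hX a'.mg).k_left hX hA] at h
  exact h

theorem st15 (hX : Sys X) {A η A' y' η' : G} (hA : A ∈ X) (hη : η ∈ X) (hA' : A' ∈ X)
    (a' : Ad X y' η')
    (h : k η (k (Sw.cj A (A' * y')) η') = k (k (Sw.cj η (A' * y')) η') A)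
    (h' : k η⁻¹ (k (Sw.cj A⁻¹ (A'⁻¹ * y'⁻¹)) η'⁻¹) =
      k (k (Sw.cj η⁻¹ (A'⁻¹ * y'⁻¹)) η'⁻¹) A⁻¹) :
    k η (k A η') = k (k η η') A := by
  have h1 := st15a hX hA hη hA' a' h
  have h2 := st15a hX (hX.inv _ hA) (hX.inv _ hη) (hX.inv _ hA') (a'.inv hX) h'
  have mη' := a'.mg
  have iA := hX.inv _ hA
  have iη := hX.inv _ hη
  have iA' := hX.inv _ hA'
  have iη' := hX.inv _ mη'
  have m1 := hX.kc _ hA _ mη'
  have m2 := hX.kc _ hA _ hA'
  have m3 := hX.kc _ hη _ mη'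
  have m4 := hX.kc _ hη _ hA'
  have m5 := hX.kc _ m2 _ mη'
  have m6 := hX.kc _ m4 _ mη'
  have m5' := hX.inv _ m5
  have m6' := hX.inv _ m6
  rw [hX.k_inv_l hA iη', hX.k_inv_r hA mη', inv_inv, hX.k_inv_l hη m1,
    hX.k_inv_l hA iA', hX.k_inv_r hA hA', inv_inv, hX.k_inv_r m2 mη', hX.k_inv_l hη m5',
    hX.k_inv_r hη m5, inv_inv, hX.k_inv_l hη iη', hX.k_inv_r hη mη', inv_inv,
    hX.k_inv_r m3 hA, hX.k_inv_l hη iA', hX.k_inv_r hη hA', inv_inv, hX.k_inv_r m4 mη',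
    hX.k_inv_l m6 iA, hX.k_inv_r m6 hA, inv_inv] at h2
  have c1 := hX.cube _ (hX.kc _ hη _ m1)
  have c2 := hX.cube _ (hX.kc _ m3 _ hA)
  apply sq_inj c1 c2
  set e0 := k η (k A η')
  set e1 := k η (k (k A A') η')
  set f0 := k (k η η') A
  set f1 := k (k (k η A') η') A
  calc e0 ^ 2 = (e0 * e1) * (e0⁻¹ * e1)⁻¹ := by rw [pow_two]; group
    _ = (f0 * f1) * (f0⁻¹ * f1)⁻¹ := by rw [h1, h2]
    _ = f0 ^ 2 := by rw [pow_two]; group

/-- the relation for one sign -/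
theorem st_one (hX : Sys X) {A y η g : G} (hA : A ∈ X) (a1 : Ad X y η) (a2 : Ad X y η⁻¹)
    (h0 : Commute (A * y) (Sw.cj (A * y) (Sw.cj (A * y) g)))
    (h1 : Commute (A * (y * η)) (Sw.cj (A * (y * η)) (Sw.cj (A * (y * η)) g)))
    (h2 : Commute (A * (y * η⁻¹)) (Sw.cj (A * (y * η⁻¹)) (Sw.cj (A * (y * η⁻¹)) g))) :
    k η (k (Sw.cj A (Sw.cj A g * Sw.cj y g)) (Sw.cj η g)) =
      k (k (Sw.cj η (Sw.cj A g * Sw.cj y g)) (Sw.cj η g)) A := by
  have mA' := hX.cj hA g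
  have e0 : Sw.cj (A * y) g = Sw.cj A g * Sw.cj y g := cj_mul _ _ _
  have e1 : Sw.cj (A * (y * η)) g = Sw.cj A g * (Sw.cj y g * Sw.cj η g) := by
    rw [cj_mul, cj_mul]
  have e2 : Sw.cj (A * (y * η⁻¹)) g = Sw.cj A g * (Sw.cj y g * (Sw.cj η g)⁻¹) := by
    rw [cj_mul, cj_mul, cj_inv]
  have b1 := a1.cj hX g
  have b2 := a2.cj hX g
  rw [cj_inv] at b2
  rw [e0] at h0
  rw [e1] at h1
  rw [e2] at h2
  apply st14 hX hA b1.mg a1 a2
  · exact st11 hX hA a1.mw (hX.two' hA mA' b1.mw) (hX.two' a1.mw mA' b1.mw) h0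
  · rw [mul_assoc]
    exact st11 hX hA a1.mp (hX.two' hA mA' b1.mp) (hX.two' a1.mp mA' b1.mp) h1
  · rw [mul_assoc]
    exact st11 hX hA a2.mp (hX.two' hA mA' b2.mp) (hX.two' a2.mp mA' b2.mp) h2

end sys

/-- normal sets of left `3`-Engel elements of order three closed under commutators with all
elements -/
structure Lf (S : Set G) : Prop where
  cj : ∀ s ∈ S, ∀ g, Sw.cj s g ∈ S
  eng : ∀ s ∈ S, ∀ g, Commute s (k s (Sw.cj s g))
  kc : ∀ s ∈ S, ∀ g, k s g ∈ S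

theorem Lf.eng' {S : Set G} (hS : Lf S) {s : G} (hs : s ∈ S) (g : G) :
    Commute s (Sw.cj s (Sw.cj s g)) := by
  have h := hS.eng s hs g
  rw [cj_eq s (Sw.cj s g)]
  exact (Commute.refl s).mul_right h

/-- the main relation -/
theorem star {S C : Set G} (hS : Lf S) (hX : Sys (Gen (Pm C))) (hCS : C ⊆ S)
    (hC : ∀ x ∈ C, ∀ g, Sw.cj x g ∈ C)
    (hCC : ∀ x ∈ C, ∀ y ∈ C, ∃ g, y = Sw.cj x g) {x y u : G} (hx : x ∈ C) (hy : y ∈ C)
    (hu : u ∈ Gen (Pm C)) (g : G) :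
    k (k y u) (k x⁻¹ (Sw.cj (k y u) g)) = k (k (k y u) (Sw.cj (k y u) g)) x⁻¹ := by
  have hCX : ∀ x ∈ C, x ∈ Gen (Pm C) := fun x hx => Gen.sub _ (Or.inl hx)
  have mx := hCX x hx
  have my := hCX y hy
  set η := k y u with hη
  have mη : η ∈ Gen (Pm C) := hX.kc _ my _ hu
  have a1 : Ad (Gen (Pm C)) y η := Ad.of_cj hX my hu
  have a2 : Ad (Gen (Pm C)) y η⁻¹ := Ad.of_cj' hX my hu
  have y1 : y * η ∈ C := by rw [hη, ← cj_eq]; exact hC y hy u
  have y2 : y * η⁻¹ ∈ C := by rw [hη, ← hX.cj_inv_r my hu]; exact hC y hy _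
  have q1 : ∀ B ∈ C, x⁻¹ * B ∈ S := by
    intro B hB
    obtain ⟨h, rfl⟩ := hCC x hx B hB
    rw [← k_eq]
    exact hS.kc x (hCS hx) h
  have q2 : ∀ B ∈ C, x * B⁻¹ ∈ S := by
    intro B hB
    obtain ⟨h, hh⟩ := hCC B hB x hx
    have h1 : B⁻¹ * x ∈ S := by
      rw [hh, ← k_eq]
      exact hS.kc B (hCS hB) h
    have h2 := hS.cj _ h1 B⁻¹
    have e : Sw.cj (B⁻¹ * x) B⁻¹ = x * B⁻¹ := by unfold Sw.cj; group
    rwa [e] at h2
  have t1 := st_one hX (hX.inv _ mx) a1 a2 (hS.eng' (q1 y hy) g) (hS.eng' (q1 _ y1) g)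
    (hS.eng' (q1 _ y2) g)
  have a1' : Ad (Gen (Pm C)) y⁻¹ η⁻¹ := a1.inv hX
  have a2' : Ad (Gen (Pm C)) y⁻¹ η⁻¹⁻¹ := a2.inv hX
  have r1 : x * (y⁻¹ * η⁻¹) ∈ S := by
    have := q2 _ y1
    rw [mul_inv_rev, ← (a1.mc.inv_inv).eq] at this
    exact this
  have r2 : x * (y⁻¹ * η⁻¹⁻¹) ∈ S := by
    have := q2 _ y2
    rw [mul_inv_rev, ← (a2.mc.inv_inv).eq] at this
    exact this
  have t2 := st_one hX mx a1' a2' (hS.eng' (q2 y hy) g) (hS.eng' r1 g) (hS.eng' r2 g)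
  rw [cj_inv, cj_inv η g] at t2
  have mA' := hX.cj (hX.inv _ mx) g
  apply st15 hX (hX.inv _ mx) mη mA' (a1.cj hX g) t1
  rw [inv_inv, cj_inv x g, inv_inv]
  exact t2

/-- the commutators are in the radical: they commute with all their conjugates -/
theorem star_thick {S C : Set G} (hS : Lf S) (hX : Sys (Gen (Pm C))) (hCS : C ⊆ S)
    (hC : ∀ x ∈ C, ∀ g, Sw.cj x g ∈ C)
    (hCC : ∀ x ∈ C, ∀ y ∈ C, ∃ g, y = Sw.cj x g) {y u : G} (hy : y ∈ C)
    (hu : u ∈ Gen (Pm C)) {w : G} (hw : w ∈ Subgroup.closure (Gen (Pm C))) :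
    Commute (k y u) (Sw.cj (k y u) w) := by
  have hCX : ∀ x ∈ C, x ∈ Gen (Pm C) := fun x hx => Gen.sub _ (Or.inl hx)
  have key : ∀ x ∈ Gen (Pm C), ∀ y ∈ C, ∀ u ∈ Gen (Pm C), ∀ g : G,
      Commute (k y u) (Sw.cj (k y u) g) → Commute (k y u) (k (Sw.cj (k y u) g) x) := by
    apply Gen.ind
    · have base : ∀ x ∈ C, ∀ y ∈ C, ∀ u ∈ Gen (Pm C), ∀ g : G,
          Commute (k y u) (Sw.cj (k y u) g) → Commute (k y u) (k (Sw.cj (k y u) g) x) := by
        intro x hx y hy u hu g hg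
        have h1 := star hS hX hCS hC hCC hx hy hu g
        rw [k_eq_one.2 hg, k_one_left] at h1
        have h2 : Commute (k y u) (k x⁻¹ (Sw.cj (k y u) g)) := k_eq_one.1 h1
        rw [hX.k_inv_l (hCX x hx) (hX.cj (hX.kc _ (hCX y hy) _ hu) g), k_inv] at h2
        exact h2
      rintro x (hx | hx)
      · exact base x hx
      · intro y hy u hu g hg
        have h1 := base x⁻¹ hx y hy u hu g hg
        rw [hX.k_inv_r (hX.cj (hX.kc _ (hCX y hy) _ hu) g) (Gen.sub _ (Or.inr hx))] at h1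
        simpa using h1.inv_right
    · intro x hx t ht h y hy u hu g hg
      have me := hX.cj (hX.kc _ (hCX y hy) _ hu) g
      have h1 := h y hy u hu g hg
      have h2 : Commute (k y u) (k (Sw.cj (k y u) g) (Sw.cj x t)) := by
        have g1 : Sw.cj (Sw.cj (k y u) t⁻¹) (t * g * t⁻¹) = Sw.cj (Sw.cj (k y u) g) t⁻¹ := by
          rw [cj_cj, cj_cj]; congr 1; group
        have h3 := h (Sw.cj y t⁻¹) (hC y hy _) (Sw.cj u t⁻¹) (hX.cj hu _) (t * g * t⁻¹) (by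
          rw [← cj_k, g1]
          exact comm_cj hg _)
        rw [← cj_k, g1] at h3
        have h4 := comm_cj h3 t
        rw [cj_k (Sw.cj (Sw.cj (k y u) g) t⁻¹) x t, cj_cj (k y u) t⁻¹ t, cj_cj _ t⁻¹ t,
          inv_mul_cancel, cj_one, cj_one] at h4
        exact h4
      rw [cj_eq x t, (Ad.of_cj hX hx ht).k_right hX me] at h2
      have h5 := h1.inv_right.mul_right h2
      rwa [inv_mul_cancel_left] at h5
  obtain ⟨n, hn⟩ := W.closure hX.inv hw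
  clear hw
  induction n generalizing w with
  | zero =>
    have e : w = 1 := hn
    rw [e, cj_one]
  | succ n ih =>
    rcases hn with hn | ⟨w, hw, x, hx, rfl⟩
    · exact ih hn
    · have h1 := ih hw
      rw [← cj_cj, cj_eq (Sw.cj (k y u) w) x]
      exact h1.mul_right (key x hx y hy u hu w h1)

end Pool.Agent.H325
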