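import Pool.Graph.R_pool_sql_team_seeded_9f66d723.W5h59.Bu.Rad

/-!
# Locally finite `3`-groups: extensions, products of normal subgroups, the radical

Adapted from `W5h59/Bu/Rad.lean` (locally finite `2`-groups).
-/

set_option autoImplicit false
set_option linter.all false

namespace Pool.Agent.H325

open Pool.Agent.W5h59.Bu (LFn)

universe u v

/-- locally finite `3`-groups -/
def LF3 (G : Type u) [Group G] : Prop := LFn G ∧ IsPGroup 3 G

theorem LF3.image {G : Type u} {H : Type v} [Group G] [Group H] (f : G →* H)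
    (hf : Function.Surjective f) (h : LF3 G) : LF3 H := ⟨h.1.image f hf, h.2.of_surjective f hf⟩

theorem LF3.sub {G : Type u} {H : Type v} [Group G] [Group H] (f : G →* H)
    (hf : Function.Injective f) (h : LF3 H) : LF3 G := ⟨h.1.sub f hf, h.2.of_injective f hf⟩

theorem LF3.mono {G : Type u} [Group G] {A B : Subgroup G} (h : A ≤ B) (hB : LF3 B) : LF3 A :=
  LF3.sub (Subgroup.inclusion h) (Subgroup.inclusion_injective h) hB

theorem LF3.ext {G : Type u} [Group G] (N : Subgroup G) [N.Normal] (hN : LF3 N)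
    (hQ : LF3 (G ⧸ N)) : LF3 G := by
  refine ⟨hN.1.ext N hQ.1, ?_⟩
  intro g
  obtain ⟨m, hm⟩ := hQ.2 (g : G ⧸ N)
  have h1 : g ^ 3 ^ m ∈ N := by
    rw [← QuotientGroup.eq_one_iff, QuotientGroup.mk_pow]
    exact hm
  obtain ⟨l, hl⟩ := hN.2 ⟨g ^ 3 ^ m, h1⟩
  refine ⟨m + l, ?_⟩
  rw [pow_add, pow_mul]
  have := congrArg Subtype.val hl
  simpa using this

theorem LF3.sup {G : Type u} [Group G] {A B : Subgroup G} [A.Normal] [B.Normal] (hA : LF3 A)
    (hB : LF3 B) : LF3 ↥(A ⊔ B) := by
  have hn : (A.subgroupOf (A ⊔ B)).Normal := by infer_instance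
  refine LF3.ext (A.subgroupOf (A ⊔ B)) ?_ ?_
  · refine LF3.sub (H := ↥A)
      { toFun := fun x => ⟨(x : ↥(A ⊔ B)), x.2⟩
        map_one' := rfl
        map_mul' := fun _ _ => rfl } ?_ hA
    intro x y hxy
    have : ((x : ↥(A ⊔ B)) : G) = ((y : ↥(A ⊔ B)) : G) :=
      congrArg (fun z : ↥A => (z : G)) hxy
    exact Subtype.ext (Subtype.ext this)
  · refine LF3.image (G := ↥B) ((QuotientGroup.mk' (A.subgroupOf (A ⊔ B))).comp
      (Subgroup.inclusion (le_sup_right : B ≤ A ⊔ B))) ?_ hB
    intro q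
    obtain ⟨g, rfl⟩ := QuotientGroup.mk'_surjective _ q
    obtain ⟨g, hg⟩ := g
    obtain ⟨a, ha, b, hb, hab⟩ := (Subgroup.mem_sup_of_normal_left (s := A) (t := B)).mp hg
    refine ⟨⟨b, hb⟩, ?_⟩
    simp only [MonoidHom.comp_apply]
    rw [QuotientGroup.mk'_apply, QuotientGroup.mk'_apply, QuotientGroup.eq]
    rw [Subgroup.mem_subgroupOf]
    simp only [Subgroup.coe_mul, Subgroup.coe_inv, Subgroup.coe_inclusion]
    rw [← hab]
    have := Subgroup.Normal.conj_mem inferInstance a ha b⁻¹
    simpa [mul_assoc] using this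

theorem LF3.bot {G : Type u} [Group G] : LF3 (⊥ : Subgroup G) := by
  refine ⟨fun S hS => inferInstance, fun g => ⟨0, ?_⟩⟩
  rw [pow_zero, pow_one]
  exact Subsingleton.elim _ _

/-- the locally finite `3`-radical -/
def rad (G : Type u) [Group G] : Subgroup G where
  carrier := {g | ∃ M : Subgroup G, M.Normal ∧ LF3 M ∧ g ∈ M}
  one_mem' := ⟨⊥, inferInstance, LF3.bot, Subgroup.mem_bot.2 rfl⟩
  mul_mem' := by
    rintro a b ⟨M, hM, h1, h2⟩ ⟨N, hN, h3, h4⟩
    haveI := hM
    haveI := hN
    exact ⟨M ⊔ N, inferInstance, LF3.sup h1 h3, mul_mem (Subgroup.mem_sup_left h2)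
      (Subgroup.mem_sup_right h4)⟩
  inv_mem' := by
    rintro a ⟨M, hM, h1, h2⟩
    exact ⟨M, hM, h1, inv_mem h2⟩

theorem le_rad {G : Type u} [Group G] {M : Subgroup G} (hM : M.Normal) (h : LF3 M) :
    M ≤ rad G := fun g hg => ⟨M, hM, h, hg⟩

instance rad_normal (G : Type u) [Group G] : (rad G).Normal where
  conj_mem := by
    rintro a ⟨M, hM, h1, h2⟩ g
    exact ⟨M, hM, h1, hM.conj_mem a h2 g⟩

theorem rad_cover {G : Type u} [Group G] {S : Set G} (hS : S.Finite) (h : S ⊆ rad G) :
    ∃ M : Subgroup G, M.Normal ∧ LF3 M ∧ S ⊆ M := by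
  induction S, hS using Set.Finite.induction_on with
  | empty => exact ⟨⊥, inferInstance, LF3.bot, Set.empty_subset _⟩
  | @insert a S ha hS ih =>
    obtain ⟨M, hM, h1, h2⟩ := ih ((Set.subset_insert _ _).trans h)
    obtain ⟨N, hN, h3, h4⟩ := h (Set.mem_insert _ _)
    haveI := hM
    haveI := hN
    refine ⟨N ⊔ M, inferInstance, LF3.sup h3 h1, ?_⟩
    rintro x (rfl | hx)
    · exact Subgroup.mem_sup_left h4
    · exact Subgroup.mem_sup_right (h2 hx)

theorem rad_lf (G : Type u) [Group G] : LF3 (rad G) := by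
  constructor
  · intro S hS
    obtain ⟨M, hM, h1, h2⟩ := rad_cover (hS.image (rad G).subtype) (by
      rintro x ⟨y, hy, rfl⟩
      exact y.2)
    have h3 : Finite (Subgroup.closure ((rad G).subtype '' S)) := h1.1.fin (hS.image _) h2
    rw [← MonoidHom.map_closure] at h3
    have h4 : ((rad G).subtype '' (Subgroup.closure S : Set (rad G))).Finite := by
      rw [← Subgroup.coe_map]
      exact Set.toFinite _
    exact (Set.Finite.of_finite_image h4 Subtype.val_injective.injOn).to_subtype
  · rintro ⟨g, M, hM, h1, h2⟩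
    obtain ⟨m, hm⟩ := h1.2 ⟨g, h2⟩
    refine ⟨m, ?_⟩
    apply Subtype.ext
    have := congrArg Subtype.val hm
    simpa using this

/-- the quotient by the radical has trivial radical -/
theorem rad_quot (G : Type u) [Group G] : rad (G ⧸ rad G) = ⊥ := by
  rw [eq_bot_iff]
  rintro x ⟨M, hM, h1, h2⟩
  obtain ⟨g, rfl⟩ := QuotientGroup.mk'_surjective _ x
  set N := M.comap (QuotientGroup.mk' (rad G)) with hN
  have hNn : N.Normal := hM.comap _
  have h3 : LF3 N := by
    haveI : ((rad G).subgroupOf N).Normal := inferInstance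
    refine LF3.ext ((rad G).subgroupOf N) ?_ ?_
    · refine LF3.sub (H := rad G)
        { toFun := fun x => ⟨((x : N) : G), Subgroup.mem_subgroupOf.1 x.2⟩
          map_one' := rfl
          map_mul' := fun _ _ => rfl } ?_ (rad_lf G)
      intro x y hxy
      exact Subtype.ext (Subtype.ext (congrArg (fun z : rad G => (z : G)) hxy))
    · obtain ⟨f, hf⟩ : ∃ f : N →* M, ∀ x : N, ((f x : M) : G ⧸ rad G) = ((x : G) : G ⧸ rad G) :=
        ⟨{ toFun := fun x => ⟨((x : G) : G ⧸ rad G), x.2⟩
           map_one' := rfl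
           map_mul' := fun _ _ => rfl }, fun _ => rfl⟩
      have hk : (rad G).subgroupOf N ≤ f.ker := by
        intro x hx
        rw [MonoidHom.mem_ker]
        apply Subtype.ext
        rw [hf]
        exact (QuotientGroup.eq_one_iff _).2 (Subgroup.mem_subgroupOf.1 hx)
      refine LF3.sub (H := M) (QuotientGroup.lift _ f hk) ?_ h1
      rw [← MonoidHom.ker_eq_bot_iff, eq_bot_iff]
      intro q hq
      obtain ⟨x, rfl⟩ := QuotientGroup.mk'_surjective _ q
      rw [MonoidHom.mem_ker, QuotientGroup.mk'_apply, QuotientGroup.lift_mk] at hq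
      have h4 := congrArg (fun z : M => (z : G ⧸ rad G)) hq
      simp only [hf] at h4
      rw [Subgroup.mem_bot, QuotientGroup.mk'_apply, QuotientGroup.eq_one_iff,
        Subgroup.mem_subgroupOf]
      exact (QuotientGroup.eq_one_iff _).1 h4
  have h4 : g ∈ rad G := le_rad hNn h3 h2
  rw [Subgroup.mem_bot]
  exact (QuotientGroup.eq_one_iff _).2 h4

/-- abelian groups of exponent three are locally finite -/
theorem lf_of_comm {A : Type u} [Group A] (hc : ∀ x y : A, x * y = y * x)
    (h : ∀ x : A, x ^ 3 = 1) : LF3 A := by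
  letI : CommGroup A := { ‹Group A› with mul_comm := hc }
  refine ⟨?_, fun g => ⟨1, by rw [pow_one]; exact h g⟩⟩
  intro S hS
  induction S, hS using Set.Finite.induction_on with
  | empty => rw [Subgroup.closure_empty]; infer_instance
  | @insert a S ha hS ih =>
    have h1 : (Subgroup.closure (insert a S) : Set A) ⊆
        (fun z : A × A => z.1 * z.2) '' (((fun i : ℕ => a ^ i) '' Set.Iio 3) ×ˢ
          (Subgroup.closure S : Set A)) := by
      intro x hx
      rw [SetLike.mem_coe, Set.insert_eq, Subgroup.closure_union, Subgroup.mem_sup] at hx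
      obtain ⟨y, hy, z, hz, rfl⟩ := hx
      rw [Subgroup.mem_closure_singleton] at hy
      obtain ⟨m, rfl⟩ := hy
      refine ⟨(a ^ m, z), ⟨⟨(m % (3 : ℕ)).toNat, ?_, ?_⟩, hz⟩, rfl⟩
      · have h2 := Int.emod_lt_of_pos m (show (0 : ℤ) < (3 : ℕ) by norm_num)
        have h3 := Int.emod_nonneg m (show ((3 : ℕ) : ℤ) ≠ 0 by norm_num)
        rw [Set.mem_Iio]
        omega
      · have h3 := Int.emod_nonneg m (show ((3 : ℕ) : ℤ) ≠ 0 by norm_num)
        show a ^ (m % (3 : ℕ)).toNat = a ^ m
        rw [← zpow_natCast, Int.toNat_of_nonneg h3]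
        conv_rhs => rw [← Int.emod_add_mul_ediv m (3 : ℕ)]
        rw [zpow_add, zpow_mul, zpow_natCast, h, one_zpow, mul_one]
    refine Set.Finite.to_subtype (Set.Finite.subset ?_ h1)
    exact Set.Finite.image _ (((Set.finite_Iio 3).image _).prod (Set.toFinite _))

/-- groups generated by commuting elements of order three -/
theorem lf_of_gen {A : Type u} [Group A] (D : Set A) (hD : Subgroup.closure D = ⊤)
    (hc : ∀ x ∈ D, ∀ y ∈ D, x * y = y * x) (h : ∀ x ∈ D, x ^ 3 = 1) : LF3 A := by
  have hcc : ∀ x y : A, x * y = y * x := by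
    intro x y
    have hx : x ∈ Subgroup.closure D := hD ▸ Subgroup.mem_top x
    have hy : y ∈ Subgroup.closure D := hD ▸ Subgroup.mem_top y
    letI := Subgroup.closureCommGroupOfComm hc
    have := mul_comm (⟨x, hx⟩ : Subgroup.closure D) ⟨y, hy⟩
    exact congrArg Subtype.val this
  apply lf_of_comm hcc
  intro x
  have hx : x ∈ Subgroup.closure D := hD ▸ Subgroup.mem_top x
  induction hx using Subgroup.closure_induction with
  | mem x hx => exact h x hx
  | one => exact one_pow 3
  | mul x y _ _ h1 h2 =>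
    have hxy : Commute x y := hcc x y
    rw [hxy.mul_pow, h1, h2, one_mul]
  | inv x _ h1 => rw [inv_pow, h1, inv_one]

/-- the subgroup generated by a set, seen inside a larger subgroup -/
theorem closure_eq_map {G : Type u} [Group G] {K : Subgroup G} {D : Set G} (h : D ⊆ K) :
    Subgroup.closure D = (Subgroup.closure (K.subtype ⁻¹' D)).map K.subtype := by
  rw [MonoidHom.map_closure]
  congr 1
  ext y
  constructor
  · intro hy
    exact ⟨⟨y, h hy⟩, hy, rfl⟩
  · rintro ⟨z, hz, rfl⟩
    exact hz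

/-- an element of order three which commutes with its conjugates is in the radical -/
theorem mem_rad {G : Type u} [Group G] (a : G) (ha : a ^ 3 = 1)
    (h : ∀ y : G, Commute a (y * a * y⁻¹)) : a ∈ rad G := by
  refine le_rad (M := Subgroup.normalClosure {a}) inferInstance ?_ (Subgroup.subset_normalClosure rfl)
  have hcc : ∀ x ∈ Group.conjugatesOfSet {a}, ∀ y ∈ Group.conjugatesOfSet {a}, x * y = y * x := by
    intro x hx y hy
    rw [Group.mem_conjugatesOfSet_iff] at hx hy
    obtain ⟨a', ha', hx⟩ := hx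
    obtain ⟨a'', ha'', hy⟩ := hy
    rw [Set.mem_singleton_iff] at ha' ha''
    rw [ha'] at hx
    rw [ha''] at hy
    obtain ⟨g, rfl⟩ := isConj_iff.1 hx
    obtain ⟨k, rfl⟩ := isConj_iff.1 hy
    have h1 : Commute a (g⁻¹ * k * a * (g⁻¹ * k)⁻¹) := h (g⁻¹ * k)
    have h2 := h1.eq
    have h3 : g * a * g⁻¹ * (k * a * k⁻¹) = g * (a * (g⁻¹ * k * a * (g⁻¹ * k)⁻¹)) * g⁻¹ := by group
    rw [h3, h2]
    group
  have hsq : ∀ x ∈ Group.conjugatesOfSet {a}, x ^ 3 = 1 := by
    intro x hx
    rw [Group.mem_conjugatesOfSet_iff] at hx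
    obtain ⟨a', ha', hx⟩ := hx
    rw [Set.mem_singleton_iff] at ha'
    rw [ha'] at hx
    obtain ⟨g, rfl⟩ := isConj_iff.1 hx
    rw [conj_pow, ha]
    group
  have hin : ∀ x ∈ Group.conjugatesOfSet {a}, x ∈ Subgroup.normalClosure {a} :=
    fun x hx => Subgroup.subset_closure hx
  refine lf_of_gen (A := Subgroup.normalClosure {a})
    ((Subgroup.normalClosure {a}).subtype ⁻¹' Group.conjugatesOfSet {a}) ?_ ?_ ?_
  · rw [eq_top_iff]
    rintro ⟨x, hx⟩ -
    have hx' : x ∈ Subgroup.closure (Group.conjugatesOfSet {a}) := hx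
    have e := closure_eq_map (K := Subgroup.normalClosure {a}) (D := Group.conjugatesOfSet {a}) hin
    rw [e] at hx'
    obtain ⟨y, hy, hyx⟩ := hx'
    have : y = ⟨x, hx⟩ := Subtype.ext hyx
    rw [← this]
    exact hy
  · intro x hx y hy
    exact Subtype.ext (hcc _ hx _ hy)
  · intro x hx
    exact Subtype.ext (hsq _ hx)

/-- if all elements of a normal set `D` of elements of order three commute with their conjugates by
elements of a normal subgroup `N` which contains `D`, then `D` lies in the radical -/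
theorem mem_rad_of {G : Type u} [Group G] {N : Subgroup G} {D : Set G} (hDN : D ⊆ N)
    (hD3 : ∀ a ∈ D, a ^ 3 = 1) (hDc : ∀ a ∈ D, ∀ g : G, g⁻¹ * a * g ∈ D)
    (h : ∀ a ∈ D, ∀ w ∈ N, Commute a (w⁻¹ * a * w)) : D ⊆ rad G := by
  have h1 : ∀ x : N, (x : G) ∈ D → x ∈ rad N := by
    intro x hx
    apply mem_rad x (Subtype.ext (hD3 _ hx))
    intro y
    apply Subtype.ext
    have := h x hx (y⁻¹ : N) (y⁻¹ : N).2
    simpa using this.eq
  have hM : (Subgroup.closure D).Normal := by
    constructor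
    intro n hn g
    induction hn using Subgroup.closure_induction with
    | mem x hx =>
      apply Subgroup.subset_closure
      have := hDc x hx g⁻¹
      simpa using this
    | one => rw [mul_one, mul_inv_cancel]; exact one_mem _
    | mul x y _ _ h1 h2 =>
      rw [show g * (x * y) * g⁻¹ = (g * x * g⁻¹) * (g * y * g⁻¹) by group]
      exact mul_mem h1 h2
    | inv x _ h1 =>
      rw [show g * x⁻¹ * g⁻¹ = (g * x * g⁻¹)⁻¹ by group]
      exact inv_mem h1
  have hle : Subgroup.closure D ≤ (rad N).map N.subtype := by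
    rw [Subgroup.closure_le]
    intro x hx
    exact ⟨⟨x, hDN hx⟩, h1 ⟨x, hDN hx⟩ hx, rfl⟩
  have hL : LF3 ((rad N).map N.subtype) :=
    (rad_lf N).image (N.subtype.subgroupMap (rad N)) (N.subtype.subgroupMap_surjective (rad N))
  exact (Subgroup.subset_closure).trans (le_rad hM (LF3.mono hle hL))

end Pool.Agent.H325
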