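import Pool.Agent.H325.E
import Pool.Agent.H325.F

/-!
# Groups in which commutators with elements of order three have order three
-/

set_option autoImplicit false

namespace Pool.Agent.H325

open Pool.Agent.R669 (Sw.k Sw.cj)
open Pool.Agent.R669.Sw
open Pool.Agent.W5h59.Bu (LFn)

universe u v

variable {G : Type u} [Group G]

/-- the conjugacy class -/
def cl (a : G) : Set G := {x | ∃ g, x = Sw.cj a g}

theorem cl.self (a : G) : a ∈ cl a := ⟨1, (cj_one a).symm⟩

theorem cl.cj {a : G} : ∀ x ∈ cl a, ∀ g, Sw.cj x g ∈ cl a := by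
  rintro _ ⟨h, rfl⟩ g
  exact ⟨h * g, cj_cj a h g⟩

theorem cl.cl {a : G} : ∀ x ∈ cl a, ∀ y ∈ cl a, ∃ g, y = Sw.cj x g := by
  rintro _ ⟨h, rfl⟩ _ ⟨h', rfl⟩
  refine ⟨h⁻¹ * h', ?_⟩
  rw [cj_cj, mul_inv_cancel_left]

theorem Pm.sys {q : G} (q3 : q ^ 3 = 1) (h : ∀ g, Commute q (k q (Sw.cj q g))) :
    Sys (Gen (Pm (cl q))) := by
  have b1 : ∀ x ∈ cl q, ∀ y ∈ cl q, Commute x (k x y) := by
    rintro _ ⟨g, rfl⟩ _ ⟨h', rfl⟩
    have := comm_cj (h (h' * g⁻¹)) g
    rw [cj_k, cj_cj q (h' * g⁻¹) g, inv_mul_cancel_right] at this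
    exact this
  have b2 : ∀ x ∈ cl q, ∀ y ∈ cl q, Commute y (k x y) := by
    intro x hx y hy
    rw [← k_inv]
    exact (b1 y hy x hx).inv_right
  have c3 : ∀ x ∈ cl q, x ^ 3 = 1 := by
    rintro _ ⟨g, rfl⟩
    exact cube_cj q3 g
  apply Gen.sys
  · refine ⟨?_, ?_⟩
    · rintro x (hx | hx) g
      · exact Or.inl (cl.cj x hx g)
      · exact Or.inr (by rw [← cj_inv]; exact cl.cj _ hx g)
    · -- pairs
      have b3 : ∀ x ∈ cl q, ∀ y ∈ Pm (cl q), Commute x (k x y) ∧ Commute y (k x y) := by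
        rintro x hx y (hy | hy)
        · exact ⟨b1 x hx y hy, b2 x hx y hy⟩
        · have h1 := b1 x hx _ hy
          have h2 := b2 x hx _ hy
          have e : k x y = (k x y⁻¹)⁻¹ := by
            have := k_inv_right h2
            rw [inv_inv] at this
            exact this
          rw [e]
          exact ⟨h1.inv_right, by simpa using h2.inv_left.inv_right⟩
      rintro x (hx | hx) y hy
      · exact (b3 x hx y hy).1
      · have h1 := (b3 _ hx y hy).1
        have e : k x y = (k x⁻¹ y)⁻¹ := by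
          have := k_inv_left h1
          rw [inv_inv] at this
          exact this
        rw [e]
        simpa using h1.inv_left.inv_right
  · rintro x (hx | hx)
    · exact c3 x hx
    · have := cube_inv (c3 _ hx)
      rwa [inv_inv] at this
  · rintro x (hx | hx)
    · exact Or.inr (by rw [inv_inv]; exact hx)
    · exact Or.inl hx

/-- left `3`-Engel elements of order three -/
theorem engel_rad (H : HH G) {q : G} (q3 : q ^ 3 = 1) (h : ∀ g, Commute q (k q (Sw.cj q g))) :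
    q ∈ rad G := by
  have hX := Pm.sys q3 h
  refine mem_rad_of (N := Subgroup.closure (Gen (Pm (cl q)))) (D := cl q) ?_ ?_ ?_ ?_ (cl.self q)
  · intro x hx
    exact Subgroup.subset_closure (Gen.sub _ (Or.inl hx))
  · rintro _ ⟨g, rfl⟩
    exact cube_cj q3 g
  · intro x hx g
    exact cl.cj x hx g
  · intro a ha w hw
    obtain ⟨n, hn⟩ := W.closure hX.inv hw
    exact thick H hX cl.cj cl.cl n a ha w hn

theorem cls (H : HH G) {a : G} (ha : a ^ 3 = 1) : Cls (cl a) := by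
  refine ⟨cl.cj, ?_, ?_⟩
  · rintro _ ⟨g, rfl⟩
    exact cube_cj ha g
  · intro x hx y hy
    obtain ⟨g, rfl⟩ := cl.cl x hx y hy
    rw [← k_eq]
    obtain ⟨h, rfl⟩ := hx
    exact H _ (cube_cj ha h) g

theorem cubes_rad (H : HH G) {a : G} (ha : a ^ 3 = 1) (g : G) : (a * Sw.cj a g) ^ 3 ∈ rad G :=
  engel_rad H ((cls H ha).cubes (cl.self a) ⟨g, rfl⟩).p3
    (fun h => (cls H ha).left (cl.self a) ⟨g, rfl⟩ h)

/-- the second step -/
theorem step2 (hr : rad G = ⊥) {S : Set G} (hS : Lf S) (h3 : ∀ s ∈ S, s ^ 3 = 1) :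
    ∀ s ∈ S, s = 1 := by
  intro q hq
  have hCS : cl q ⊆ S := by
    rintro _ ⟨g, rfl⟩
    exact hS.cj q hq g
  have hX := Pm.sys (h3 q hq) (hS.eng q hq)
  have hCX : ∀ x ∈ cl q, x ∈ Gen (Pm (cl q)) := fun x hx => Gen.sub _ (Or.inl hx)
  have hE : {e : G | ∃ y ∈ cl q, ∃ u ∈ Gen (Pm (cl q)), e = k y u} ⊆ (rad G : Set G) := by
    refine mem_rad_of (N := Subgroup.closure (Gen (Pm (cl q)))) ?_ ?_ ?_ ?_
    · rintro _ ⟨y, hy, u, hu, rfl⟩
      exact Subgroup.subset_closure (hX.kc _ (hCX y hy) _ hu)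
    · rintro _ ⟨y, hy, u, hu, rfl⟩
      exact hX.cube _ (hX.kc _ (hCX y hy) _ hu)
    · rintro _ ⟨y, hy, u, hu, rfl⟩ g
      exact ⟨Sw.cj y g, cl.cj y hy g, Sw.cj u g, hX.cj hu g, cj_k y u g⟩
    · rintro _ ⟨y, hy, u, hu, rfl⟩ w hw
      exact star_thick hS hX hCS cl.cj cl.cl hy hu hw
  rw [hr] at hE
  have h1 : ∀ y : G, Commute q (y * q * y⁻¹) := by
    intro y
    have h2 : k q (Sw.cj q y⁻¹) ∈ ((⊥ : Subgroup G) : Set G) :=
      hE ⟨q, cl.self q, Sw.cj q y⁻¹, hCX _ ⟨y⁻¹, rfl⟩, rfl⟩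
    have h3 : k q (Sw.cj q y⁻¹) = 1 := h2
    have h4 := k_eq_one.1 h3
    simpa [Sw.cj] using h4
  have h2 := mem_rad q (h3 q hq) h1
  rw [hr] at h2
  exact Subgroup.mem_bot.1 h2

/-- all elements of order three are in the radical -/
theorem all_rad (H : HH G) {a : G} (ha : a ^ 3 = 1) : a ∈ rad G := by
  set π := QuotientGroup.mk' (rad G) with hπ
  have πk : ∀ x y : G, π (k x y) = k (π x) (π y) := by
    intro x y; simp [k]
  have πcj : ∀ x y : G, π (Sw.cj x y) = Sw.cj (π x) (π y) := by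
    intro x y; simp [Sw.cj]
  have hS : Lf (π '' {a : G | a ^ 3 = 1}) := by
    refine ⟨?_, ?_, ?_⟩
    · rintro _ ⟨a, ha, rfl⟩ g
      obtain ⟨g, rfl⟩ := QuotientGroup.mk'_surjective _ g
      exact ⟨Sw.cj a g, cube_cj ha g, πcj a g⟩
    · rintro _ ⟨a, ha, rfl⟩ g
      obtain ⟨g, rfl⟩ := QuotientGroup.mk'_surjective _ g
      have ha' : a ^ 3 = 1 := ha
      have e : Sw.cj (π a) (QuotientGroup.mk' (rad G) g) = π (Sw.cj a g) := (πcj a g).symm
      rw [e]
      refine (trick (p := π a) (d := π (Sw.cj a g)) ?_ ?_ ?_ ?_).1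
      · rw [← map_pow, ha', map_one]
      · rw [← map_pow, cube_cj ha' g, map_one]
      · rw [← map_mul, ← map_pow, hπ, QuotientGroup.mk'_apply, QuotientGroup.eq_one_iff]
        exact cubes_rad H ha' g
      · rw [← map_inv, ← map_mul, ← map_pow, ← k_eq, H a ha' g, map_one]
    · rintro _ ⟨a, ha, rfl⟩ g
      obtain ⟨g, rfl⟩ := QuotientGroup.mk'_surjective _ g
      exact ⟨k a g, H a ha g, πk a g⟩
  have h1 := step2 (rad_quot G) hS (by
    rintro _ ⟨a, ha, rfl⟩
    have ha' : a ^ 3 = 1 := ha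
    rw [← map_pow, ha', map_one]) (π a) ⟨a, ha, rfl⟩
  rw [hπ, QuotientGroup.mk'_apply, QuotientGroup.eq_one_iff] at h1
  exact h1

/-- the subgroup generated by the elements of order three -/
def TT (G : Type u) [Group G] : Subgroup G := Subgroup.closure {a | a ^ 3 = 1}

instance TT_normal (G : Type u) [Group G] : (TT G).Normal := by
  constructor
  intro n hn g
  unfold TT at hn ⊢
  induction hn using Subgroup.closure_induction with
  | mem x hx =>
    apply Subgroup.subset_closure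
    show (g * x * g⁻¹) ^ 3 = 1
    have : x ^ 3 = 1 := hx
    rw [conj_pow, this]
    group
  | one => rw [mul_one, mul_inv_cancel]; exact one_mem _
  | mul x y _ _ h1 h2 =>
    rw [show g * (x * y) * g⁻¹ = (g * x * g⁻¹) * (g * y * g⁻¹) by group]
    exact mul_mem h1 h2
  | inv x _ h1 =>
    rw [show g * x⁻¹ * g⁻¹ = (g * x * g⁻¹)⁻¹ by group]
    exact inv_mem h1

/-- the subgroup generated by the elements of order three is a locally finite `3`-group -/
theorem TT_lf (H : HH G) : LF3 (TT G) := by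
  refine LF3.mono ?_ (rad_lf G)
  unfold TT
  rw [Subgroup.closure_le]
  intro a ha
  exact all_rad H ha

/-- local finiteness from exponent `m` to exponent `3 m` -/
theorem main_three (H : HH G) {m : ℕ} (hG : ∀ x : G, x ^ (3 * m) = 1)
    (hm : ∀ (K : Type u) [Group K], (∀ x : K, x ^ m = 1) → LFn K) : LFn G := by
  refine LFn.ext (TT G) (TT_lf H).1 (hm _ ?_)
  intro x
  obtain ⟨x, rfl⟩ := QuotientGroup.mk'_surjective _ x
  rw [← map_pow, QuotientGroup.mk'_apply, QuotientGroup.eq_one_iff]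
  apply Subgroup.subset_closure
  show (x ^ m) ^ 3 = 1
  rw [← pow_mul, mul_comm]
  exact hG x

end Pool.Agent.H325
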