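import Pool.Agent.H325.T
import Pool.Agent.H155.CT.Periodic

/-!
# Laws on commutators with `m`-th powers, and local finiteness of periodic groups
-/

set_option autoImplicit false

open scoped commutatorElement

namespace Pool.Agent.H325

open Pool.Agent.R669 (Sw.k Sw.cj)
open Pool.Agent.R669.Sw
open Pool.Agent.W5h59.Bu (LFn)

universe u

variable {G : Type u} [Group G]

namespace P

theorem sup {A B : Subgroup G} [A.Normal] [B.Normal] (hA : LFn A)
    (hB : LFn B) : LFn ↥(A ⊔ B) := by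
  have hn : (A.subgroupOf (A ⊔ B)).Normal := by infer_instance
  refine LFn.ext (A.subgroupOf (A ⊔ B)) ?_ ?_
  · refine LFn.sub (H := ↥A)
      { toFun := fun x => ⟨(x : ↥(A ⊔ B)), x.2⟩
        map_one' := rfl
        map_mul' := fun _ _ => rfl } ?_ hA
    intro x y hxy
    have : ((x : ↥(A ⊔ B)) : G) = ((y : ↥(A ⊔ B)) : G) :=
      congrArg (fun z : ↥A => (z : G)) hxy
    exact Subtype.ext (Subtype.ext this)
  · refine LFn.image (G := ↥B) ((QuotientGroup.mk' (A.subgroupOf (A ⊔ B))).comp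
      (Subgroup.inclusion (le_sup_right : B ≤ A ⊔ B))) ?_ hB
    intro q
    obtain ⟨g, rfl⟩ := QuotientGroup.mk'_surjective _ q
    obtain ⟨g, hg⟩ := g
    obtain ⟨a, ha, b, hb, hab⟩ := (Subgroup.mem_sup_of_normal_left (s := A) (t := B)).mp hg
    refine ⟨⟨b, hb⟩, ?_⟩
    simp only [MonoidHom.comp_apply]
    rw [QuotientGroup.mk'_apply, QuotientGroup.mk'_apply, QuotientGroup.eq]
    rw [Subgroup.mem_subgroupOf]
    simp only [Subgroup.coe_mul, Subgroup.coe_inv, Subgroup.coe_inclusion]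
    rw [← hab]
    have := Subgroup.Normal.conj_mem inferInstance a ha b⁻¹
    simpa [mul_assoc] using this

theorem bot : LFn (⊥ : Subgroup G) := fun _ _ => inferInstance

/-- the locally finite radical -/
def radL (G : Type u) [Group G] : Subgroup G where
  carrier := {g | ∃ M : Subgroup G, M.Normal ∧ LFn M ∧ g ∈ M}
  one_mem' := ⟨⊥, inferInstance, bot, Subgroup.mem_bot.2 rfl⟩
  mul_mem' := by
    rintro a b ⟨M, hM, h1, h2⟩ ⟨N, hN, h3, h4⟩
    haveI := hM
    haveI := hN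
    exact ⟨M ⊔ N, inferInstance, sup h1 h3, mul_mem (Subgroup.mem_sup_left h2)
      (Subgroup.mem_sup_right h4)⟩
  inv_mem' := by
    rintro a ⟨M, hM, h1, h2⟩
    exact ⟨M, hM, h1, inv_mem h2⟩

instance radL_normal (G : Type u) [Group G] : (radL G).Normal where
  conj_mem := by
    rintro a ⟨M, hM, h1, h2⟩ g
    exact ⟨M, hM, h1, hM.conj_mem a h2 g⟩

theorem cover {S : Set G} (hS : S.Finite) (h : S ⊆ radL G) :
    ∃ M : Subgroup G, M.Normal ∧ LFn M ∧ S ⊆ M := by
  induction S, hS using Set.Finite.induction_on with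
  | empty => exact ⟨⊥, inferInstance, bot, Set.empty_subset _⟩
  | @insert a S ha hS ih =>
    obtain ⟨M, hM, h1, h2⟩ := ih ((Set.subset_insert _ _).trans h)
    obtain ⟨N, hN, h3, h4⟩ := h (Set.mem_insert _ _)
    haveI := hM
    haveI := hN
    refine ⟨N ⊔ M, inferInstance, sup h3 h1, ?_⟩
    rintro x (rfl | hx)
    · exact Subgroup.mem_sup_left h4
    · exact Subgroup.mem_sup_right (h2 hx)

theorem radL_lf (G : Type u) [Group G] : LFn (radL G) := by
  intro S hS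
  obtain ⟨M, hM, h1, h2⟩ := cover (hS.image (radL G).subtype) (by
    rintro x ⟨y, hy, rfl⟩
    exact y.2)
  have h3 : Finite (Subgroup.closure ((radL G).subtype '' S)) := h1.fin (hS.image _) h2
  rw [← MonoidHom.map_closure] at h3
  have h4 : ((radL G).subtype '' (Subgroup.closure S : Set (radL G))).Finite := by
    rw [← Subgroup.coe_map]
    exact Set.toFinite _
  exact (Set.Finite.of_finite_image h4 Subtype.val_injective.injOn).to_subtype

/-- if `x ^ m` commutes with its normal closure modulo the radical -/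
theorem lfn_of_comm_rad {m : ℕ} (hp : ∀ x : G, ∃ n : ℕ, 0 < n ∧ x ^ n = 1)
    (h : ∀ x : G, ∀ y ∈ Subgroup.normalClosure {x ^ m}, k (x ^ m) y ∈ rad G)
    (hm : ∀ (K : Type u) [Group K], (∀ x : K, x ^ m = 1) → LFn K) : LFn G := by
  refine LFn.ext (rad G) (rad_lf G).1 ?_
  have hs := QuotientGroup.mk'_surjective (rad G)
  refine LFn.ext (radL (G ⧸ rad G)) (radL_lf _) (hm _ ?_)
  intro q
  obtain ⟨q, rfl⟩ := QuotientGroup.mk'_surjective _ q
  rw [← map_pow, QuotientGroup.mk'_apply, QuotientGroup.eq_one_iff]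
  obtain ⟨x, rfl⟩ := hs q
  set a : G ⧸ rad G := (QuotientGroup.mk' (rad G) x) ^ m with ha
  have hc : Subgroup.normalClosure {a} ≤
      Subgroup.centralizer ((Subgroup.normalClosure {a} : Subgroup (G ⧸ rad G)) : Set _) := by
    apply Subgroup.normalClosure_le_normal
    rw [Set.singleton_subset_iff, SetLike.mem_coe, Subgroup.mem_centralizer_iff]
    intro w hw
    have e0 : Subgroup.normalClosure {a} =
        (Subgroup.normalClosure {x ^ m}).map (QuotientGroup.mk' (rad G)) := by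
      rw [Subgroup.map_normalClosure _ _ hs, Set.image_singleton, map_pow]
    rw [SetLike.mem_coe, e0] at hw
    obtain ⟨y, hy, rfl⟩ := hw
    have h1 : QuotientGroup.mk' (rad G) (k (x ^ m) y) = 1 := by
      rw [QuotientGroup.mk'_apply, QuotientGroup.eq_one_iff]
      exact h x y hy
    have h2 : k a (QuotientGroup.mk' (rad G) y) = 1 := by
      rw [← h1, ha]; simp [k]
    have h3 : a⁻¹ * (QuotientGroup.mk' (rad G) y)⁻¹ * a * QuotientGroup.mk' (rad G) y = 1 := h2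
    have h4 : a * QuotientGroup.mk' (rad G) y = QuotientGroup.mk' (rad G) y * a := by
      have h5 : a * QuotientGroup.mk' (rad G) y = (QuotientGroup.mk' (rad G) y * a) *
        (a⁻¹ * (QuotientGroup.mk' (rad G) y)⁻¹ * a * QuotientGroup.mk' (rad G) y) := by group
      rw [h5, h3, mul_one]
    exact h4.symm
  refine ⟨Subgroup.normalClosure {a}, inferInstance, ?_, Subgroup.subset_normalClosure rfl⟩
  apply Pool.Agent.H155.CT.lfn_of_comm
  · rintro ⟨s, hs⟩ ⟨t, ht⟩
    apply Subtype.ext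
    exact ((Subgroup.mem_centralizer_iff.1 (hc hs)) t ht).symm
  · rintro ⟨s, hs'⟩
    obtain ⟨s, rfl⟩ := hs s
    obtain ⟨n, hn, h1⟩ := hp s
    refine ⟨n, hn, Subtype.ext ?_⟩
    show (QuotientGroup.mk' (rad G) s) ^ n = 1
    rw [← map_pow, h1, map_one]

/-- the same conclusion if no commutator `[x ^ m, y]` starts a chain -/
theorem lfn_of_no_chain {m : ℕ} (hp : ∀ x : G, ∃ n : ℕ, 0 < n ∧ x ^ n = 1)
    (h : ∀ (x y : G) (f : ℕ → G), f 0 = k (x ^ m) y → ¬ Ch f)
    (hm : ∀ (K : Type u) [Group K], (∀ x : K, x ^ m = 1) → LFn K) : LFn G := by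
  refine lfn_of_comm_rad hp (fun x y _ => ?_) hm
  by_contra hx
  obtain ⟨f, h0, hf⟩ := exists_chain hx
  exact h x y f h0 hf

/-- orders `m * 3 ^ r` -/
theorem pow_rad {m : ℕ}
    (h : ∀ x : G, (x ^ m) ^ 3 ∈ rad G → x ^ m ∈ rad G) (r : ℕ) :
    ∀ x : G, x ^ (m * 3 ^ r) = 1 → x ^ m ∈ rad G := by
  induction r with
  | zero =>
    intro x hx
    rw [pow_zero, mul_one] at hx
    rw [hx]
    exact one_mem _
  | succ r ih =>
    intro x hx
    apply h
    have h1 : (x ^ 3) ^ (m * 3 ^ r) = 1 := by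
      rw [← pow_mul, ← hx]
      congr 1
      ring
    have h2 := ih (x ^ 3) h1
    rwa [← pow_mul, mul_comm 3 m, pow_mul] at h2

/-- elements of order `3` or `9` are `m`-th powers -/
theorem exists_root {m : ℕ} (hm : ¬ 3 ∣ m) {u : G} (hu : u ^ 9 = 1) : ∃ z : G, u = z ^ m := by
  have h1 : Nat.Coprime m 9 := by
    have : Nat.Coprime m 3 := ((Nat.Prime.coprime_iff_not_dvd Nat.prime_three).2 hm).symm
    exact (this.pow_right 2)
  have h2 := Nat.gcd_eq_gcd_ab m 9
  rw [h1.gcd_eq_one] at h2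
  refine ⟨u ^ (Nat.gcdA m 9), ?_⟩
  have h3 : u ^ (9 : ℤ) = 1 := by
    rw [show (9 : ℤ) = ((9 : ℕ) : ℤ) by norm_num, zpow_natCast]; exact hu
  calc u = u ^ (1 : ℤ) := (zpow_one u).symm
    _ = u ^ ((m : ℤ) * Nat.gcdA m 9 + 9 * Nat.gcdB m 9) := by
        rw [show ((1 : ℕ) : ℤ) = 1 by norm_num] at h2
        rw [h2]
        norm_num
    _ = (u ^ (Nat.gcdA m 9)) ^ m := by
        rw [zpow_add, zpow_mul u 9, h3, one_zpow, mul_one, mul_comm, zpow_mul, zpow_natCast]

/-- cubes of elements of order `9` are `m`-th powers if `9` does not divide `m` -/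
theorem exists_root' {m : ℕ} (hm : ¬ 9 ∣ m) {u : G} (hu : u ^ 9 = 1) : ∃ z : G, u ^ 3 = z ^ m := by
  have h1 : Nat.gcd m 9 ∣ 3 := by
    have h2 : Nat.gcd m 9 ∣ 3 ^ 2 := by norm_num [Nat.gcd_dvd_right]
    obtain ⟨i, hi, h3⟩ := (Nat.dvd_prime_pow Nat.prime_three).1 h2
    interval_cases i
    · rw [h3]; norm_num
    · rw [h3]; norm_num
    · exfalso
      apply hm
      have := Nat.gcd_dvd_left m 9
      rw [h3] at this
      simpa using this
  obtain ⟨c, hc⟩ := h1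
  have h2 := Nat.gcd_eq_gcd_ab m 9
  have h3 : u ^ (9 : ℤ) = 1 := by
    rw [show (9 : ℤ) = ((9 : ℕ) : ℤ) by norm_num, zpow_natCast]; exact hu
  refine ⟨u ^ (Nat.gcdA m 9 * c), ?_⟩
  have h4 : (3 : ℤ) = (Nat.gcdA m 9 * c) * m + 9 * (Nat.gcdB m 9 * c) := by
    have h5 : ((3 : ℕ) : ℤ) = (Nat.gcd m 9 : ℤ) * c := by exact_mod_cast hc
    rw [h2] at h5
    push_cast at h5
    rw [show (3 : ℤ) = ((3 : ℕ) : ℤ) by norm_num]
    push_cast
    rw [h5]
    ring
  calc u ^ 3 = u ^ (3 : ℤ) := by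
        rw [show (3 : ℤ) = ((3 : ℕ) : ℤ) by norm_num, zpow_natCast]
    _ = u ^ ((Nat.gcdA m 9 * c) * m + 9 * (Nat.gcdB m 9 * c)) := by rw [← h4]
    _ = (u ^ (Nat.gcdA m 9 * c)) ^ m := by
        rw [zpow_add, zpow_mul u 9, h3, one_zpow, mul_one, zpow_mul, zpow_natCast]

/-- commutators of cube one -/
theorem case_three {m : ℕ}
    (h : ∀ x : G, ∀ y ∈ Subgroup.normalClosure {x ^ m}, (k (x ^ m) y) ^ 3 = 1)
    (hp : (∀ x : G, ∃ r : ℕ, x ^ (m * 3 ^ r) = 1) ∨
      (¬ 3 ∣ m ∧ ∀ x : G, ∃ n : ℕ, 0 < n ∧ x ^ n = 1))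
    (hm : ∀ (K : Type u) [Group K], (∀ x : K, x ^ m = 1) → LFn K) : LFn G := by
  rcases hp with hp | ⟨h3, hp⟩
  · refine lfn_of_rad (m := m) (fun x => ?_) hm
    obtain ⟨r, hr⟩ := hp x
    refine pow_rad (fun x hx => ?_) r x hr
    refine rad_step hx (fun g hg => ?_)
    rw [h x g hg]
    exact one_mem _
  · refine lfn_of_comm_rad hp (fun x y hy => ?_) hm
    have hu := h x y hy
    obtain ⟨z, hz⟩ := exists_root (G := G) h3 (u := k (x ^ m) y) (by
      rw [show 9 = 3 * 3 by norm_num, pow_mul, hu, one_pow])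
    refine rad_of_closure hu (fun g hg => ?_)
    rw [hz] at hg ⊢
    exact h z g hg

/-- the law of length `n` -/
theorem pow_mem {m n : ℕ} (hm9 : ¬ 9 ∣ m) (h9 : ∀ x y : G, (k (x ^ m) y) ^ 9 = 1)
    (hW : ∀ (x : G) (l : List G), l.length = n →
      l.foldl (fun a y => (k a y) ^ 3) (x ^ m) = 1) (x : G) (hx : (x ^ m) ^ 3 ∈ rad G) :
    x ^ m ∈ rad G := by
  by_contra hcon
  have key : ∀ i : ℕ, ∃ l : List G, l.length = i ∧
      l.foldl (fun a y => (k a y) ^ 3) (x ^ m) ∉ rad G ∧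
      (l.foldl (fun a y => (k a y) ^ 3) (x ^ m)) ^ 3 ∈ rad G ∧
      ∃ z : G, l.foldl (fun a y => (k a y) ^ 3) (x ^ m) = z ^ m := by
    intro i
    induction i with
    | zero => exact ⟨[], rfl, hcon, hx, x, rfl⟩
    | succ i ih =>
      obtain ⟨l, h1, h2, h3, z, hz⟩ := ih
      obtain ⟨g, -, hg⟩ : ∃ g ∈ Subgroup.normalClosure
          {l.foldl (fun a y => (k a y) ^ 3) (x ^ m)},
          (k (l.foldl (fun a y => (k a y) ^ 3) (x ^ m)) g) ^ 3 ∉ rad G := by
        by_contra hc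
        push Not at hc
        exact h2 (rad_step h3 hc)
      refine ⟨l ++ [g], by rw [List.length_append, h1]; rfl, ?_⟩
      rw [List.foldl_append, List.foldl_cons, List.foldl_nil]
      refine ⟨hg, ?_, ?_⟩
      · rw [← pow_mul, hz, h9]
        exact one_mem _
      · rw [hz]
        exact exists_root' hm9 (h9 z g)
  obtain ⟨l, h1, h2, -⟩ := key n
  exact h2 (by rw [hW x l h1]; exact one_mem _)

theorem case_nine {m n : ℕ} (hm9 : ¬ 9 ∣ m) (h9 : ∀ x y : G, (k (x ^ m) y) ^ 9 = 1)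
    (hW : ∀ (x : G) (l : List G), l.length = n →
      l.foldl (fun a y => (k a y) ^ 3) (x ^ m) = 1)
    (hp : (∀ x : G, ∃ r : ℕ, x ^ (m * 3 ^ r) = 1) ∨
      (¬ 3 ∣ m ∧ ∀ x : G, ∃ n : ℕ, 0 < n ∧ x ^ n = 1))
    (hm : ∀ (K : Type u) [Group K], (∀ x : K, x ^ m = 1) → LFn K) : LFn G := by
  rcases hp with hp | ⟨h3, hp⟩
  · refine lfn_of_rad (m := m) (fun x => ?_) hm
    obtain ⟨r, hr⟩ := hp x
    exact pow_rad (pow_mem hm9 h9 hW) r x hr
  · refine lfn_of_comm_rad hp (fun x y _ => ?_) hm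
    have hu := h9 x y
    obtain ⟨z, hz⟩ := exists_root (G := G) h3 hu
    rw [hz]
    refine pow_mem hm9 h9 hW z ?_
    have e : (z ^ m) ^ 3 = (z ^ 3) ^ m := by rw [← pow_mul, ← pow_mul, mul_comm]
    rw [e]
    refine pow_mem hm9 h9 hW (z ^ 3) ?_
    rw [← e, ← hz, ← pow_mul, hu]
    exact one_mem _

end P

end Pool.Agent.H325
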