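import Pool.Agent.H325.P

/-!
# Commutators with `m`-th powers in arbitrary groups: the derived subgroup
-/

set_option autoImplicit false

open scoped commutatorElement

namespace Pool.Agent.H325

open Pool.Agent.R669 (Sw.k Sw.cj)
open Pool.Agent.R669.Sw
open Pool.Agent.W5h59.Bu (LFn)

universe u

namespace P

theorem finite_commSet {H : Type u} [Group H] (hZ : Finite (H ⧸ Subgroup.center H)) :
    Finite (commutatorSet H) := by
  have hf := Set.finite_range (fun p : (H ⧸ Subgroup.center H) × (H ⧸ Subgroup.center H) =>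
    ⁅Quotient.out p.1, Quotient.out p.2⁆)
  refine (hf.subset ?_).to_subtype
  rintro _ ⟨g, h, rfl⟩
  refine ⟨((g : H ⧸ Subgroup.center H), (h : H ⧸ Subgroup.center H)), ?_⟩
  obtain ⟨⟨z, hz⟩, h1⟩ := QuotientGroup.mk_out_eq_mul (Subgroup.center H) g
  obtain ⟨⟨w, hw⟩, h2⟩ := QuotientGroup.mk_out_eq_mul (Subgroup.center H) h
  have hz' := Subgroup.mem_center_iff.1 hz
  have hw' := Subgroup.mem_center_iff.1 hw
  show ⁅Quotient.out (g : H ⧸ Subgroup.center H), Quotient.out (h : H ⧸ Subgroup.center H)⁆ = ⁅g, h⁆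
  rw [h1, h2]
  show ⁅g * z, h * w⁆ = ⁅g, h⁆
  rw [commutatorElement_def, commutatorElement_def]
  calc g * z * (h * w) * (g * z)⁻¹ * (h * w)⁻¹
      = g * (z * (h * w)) * z⁻¹ * g⁻¹ * (h * w)⁻¹ := by group
    _ = g * ((h * w) * z) * z⁻¹ * g⁻¹ * (h * w)⁻¹ := by rw [hz' (h * w)]
    _ = g * h * (w * g⁻¹) * w⁻¹ * h⁻¹ := by group
    _ = g * h * (g⁻¹ * w) * w⁻¹ * h⁻¹ := by rw [hw' g⁻¹]
    _ = g * h * g⁻¹ * h⁻¹ := by group

theorem exists_fin_comm {G : Type u} [Group G] {x : G} (hx : x ∈ commutator G) :
    ∃ F : Set G, F.Finite ∧ x ∈ ⁅Subgroup.closure F, Subgroup.closure F⁆ := by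
  rw [commutator_eq_closure] at hx
  induction hx using Subgroup.closure_induction with
  | mem x hx =>
    obtain ⟨g, h, rfl⟩ := hx
    refine ⟨{g, h}, (Set.finite_singleton h).insert g, ?_⟩
    exact Subgroup.commutator_mem_commutator
      (Subgroup.subset_closure (Set.mem_insert g _))
      (Subgroup.subset_closure (Set.mem_insert_of_mem _ rfl))
  | one => exact ⟨∅, Set.finite_empty, one_mem _⟩
  | mul x y _ _ h1 h2 =>
    obtain ⟨F1, hF1, h1⟩ := h1
    obtain ⟨F2, hF2, h2⟩ := h2
    refine ⟨F1 ∪ F2, hF1.union hF2, mul_mem ?_ ?_⟩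
    · exact Subgroup.commutator_mono (Subgroup.closure_mono Set.subset_union_left)
        (Subgroup.closure_mono Set.subset_union_left) h1
    · exact Subgroup.commutator_mono (Subgroup.closure_mono Set.subset_union_right)
        (Subgroup.closure_mono Set.subset_union_right) h2
  | inv x _ h1 =>
    obtain ⟨F, hF, h1⟩ := h1
    exact ⟨F, hF, inv_mem h1⟩

theorem exists_fin_comm_set {G : Type u} [Group G] {T : Set G} (hT : T.Finite)
    (h : T ⊆ commutator G) :
    ∃ F : Set G, F.Finite ∧
      T ⊆ ((⁅Subgroup.closure F, Subgroup.closure F⁆ : Subgroup G) : Set G) := by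
  induction T, hT using Set.Finite.induction_on with
  | empty => exact ⟨∅, Set.finite_empty, Set.empty_subset _⟩
  | @insert a T _ _ ih =>
    obtain ⟨F1, hF1, h1⟩ := ih ((Set.subset_insert _ _).trans h)
    obtain ⟨F2, hF2, h2⟩ := exists_fin_comm (h (Set.mem_insert _ _))
    refine ⟨F1 ∪ F2, hF1.union hF2, ?_⟩
    rintro x (rfl | hx)
    · exact Subgroup.commutator_mono (Subgroup.closure_mono Set.subset_union_right)
        (Subgroup.closure_mono Set.subset_union_right) h2
    · exact Subgroup.commutator_mono (Subgroup.closure_mono Set.subset_union_left)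
        (Subgroup.closure_mono Set.subset_union_left) (h1 hx)

/-- if the `m`-th powers are central and `m` is good, the derived subgroup is locally finite -/
theorem comm_lf_of_central {m : ℕ} {G : Type u} [Group G] (hc : ∀ x y : G, x ^ m * y = y * x ^ m)
    (hm : ∀ (K : Type u) [Group K], (∀ x : K, x ^ m = 1) → LFn K) : LFn (commutator G) := by
  intro S hS
  obtain ⟨F, hF, hT⟩ := exists_fin_comm_set (hS.image (commutator G).subtype) (by
    rintro _ ⟨y, _, rfl⟩
    exact y.2)
  set H := Subgroup.closure F with hH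
  have h1 : Finite (H ⧸ Subgroup.center H) := by
    have h2 : LFn (H ⧸ Subgroup.center H) := by
      apply hm
      intro q
      obtain ⟨x, rfl⟩ := QuotientGroup.mk'_surjective _ q
      rw [← map_pow, QuotientGroup.mk'_apply, QuotientGroup.eq_one_iff,
        Subgroup.mem_center_iff]
      intro y
      apply Subtype.ext
      exact (hc (x : G) (y : G)).symm
    have h3 : Group.FG H := by
      rw [Group.fg_iff_subgroup_fg]
      exact (Subgroup.fg_iff _).2 ⟨F, hH.symm, hF⟩
    have h4 : Group.FG (H ⧸ Subgroup.center H) := inferInstance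
    obtain ⟨T, hT⟩ := Group.fg_def.1 h4
    have h5 := h2 (T : Set _) T.finite_toSet
    rw [hT] at h5
    exact Finite.of_equiv _ (Subgroup.topEquiv : (⊤ : Subgroup (H ⧸ Subgroup.center H)) ≃* _).toEquiv
  have h6 := finite_commSet h1
  have h7 : Finite (commutator H) := inferInstance
  have h8 : Finite ↥(⁅H, H⁆ : Subgroup G) := by
    have e : (⁅H, H⁆ : Subgroup G) = (commutator H).map H.subtype := by
      rw [commutator_def, Subgroup.map_commutator, ← MonoidHom.range_eq_map, Subgroup.range_subtype]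
    rw [e]
    have : ((commutator H).map H.subtype : Set G).Finite := by
      rw [Subgroup.coe_map]
      exact Set.Finite.image _ (Set.toFinite _)
    exact this.to_subtype
  have h9 : Finite (Subgroup.closure ((commutator G).subtype '' S)) :=
    (Set.Finite.subset (Set.toFinite ((⁅H, H⁆ : Subgroup G) : Set G))
      ((Subgroup.closure_le _).2 hT)).to_subtype
  rw [← MonoidHom.map_closure] at h9
  have h10 : ((commutator G).subtype '' (Subgroup.closure S : Set (commutator G))).Finite := by
    rw [← Subgroup.coe_map]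
    exact Set.toFinite _
  exact (Set.Finite.of_finite_image h10 Subtype.val_injective.injOn).to_subtype

/-- if all commutators with `m`-th powers are in the radical, the derived subgroup is locally
finite -/
theorem comm_lf_of_rad {m : ℕ} {G : Type u} [Group G] (h : ∀ x y : G, k (x ^ m) y ∈ rad G)
    (hm : ∀ (K : Type u) [Group K], (∀ x : K, x ^ m = 1) → LFn K) : LFn (commutator G) := by
  have hs := QuotientGroup.mk'_surjective (rad G)
  have hQ : LFn (commutator (G ⧸ rad G)) := by
    refine comm_lf_of_central (m := m) ?_ hm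
    intro q r
    obtain ⟨x, rfl⟩ := hs q
    obtain ⟨y, rfl⟩ := hs r
    have h1 : QuotientGroup.mk' (rad G) (k (x ^ m) y) = 1 := by
      rw [QuotientGroup.mk'_apply, QuotientGroup.eq_one_iff]
      exact h x y
    have h3 : ((QuotientGroup.mk' (rad G) x) ^ m)⁻¹ * (QuotientGroup.mk' (rad G) y)⁻¹ *
        (QuotientGroup.mk' (rad G) x) ^ m * QuotientGroup.mk' (rad G) y = 1 := by
      rw [← h1]; simp [k]
    have h5 : (QuotientGroup.mk' (rad G) x) ^ m * QuotientGroup.mk' (rad G) y =
      (QuotientGroup.mk' (rad G) y * (QuotientGroup.mk' (rad G) x) ^ m) *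
        (((QuotientGroup.mk' (rad G) x) ^ m)⁻¹ * (QuotientGroup.mk' (rad G) y)⁻¹ *
        (QuotientGroup.mk' (rad G) x) ^ m * QuotientGroup.mk' (rad G) y) := by group
    rw [h5, h3, mul_one]
  -- the map of the derived subgroup to the derived subgroup of the quotient
  let f : commutator G →* G ⧸ rad G := (QuotientGroup.mk' (rad G)).comp (commutator G).subtype
  refine LFn.ext f.ker ?_ ?_
  · refine LFn.sub (H := rad G)
      { toFun := fun x => ⟨((x : f.ker) : commutator G), by
          have h1 : f (x : commutator G) = 1 := x.2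
          exact (QuotientGroup.eq_one_iff _).1 h1⟩
        map_one' := rfl
        map_mul' := fun _ _ => rfl } ?_ (rad_lf G).1
    intro x y hxy
    have : (((x : f.ker) : commutator G) : G) = (((y : f.ker) : commutator G) : G) :=
      congrArg (fun z : rad G => (z : G)) hxy
    exact Subtype.ext (Subtype.ext this)
  · have hr : ∀ x : commutator G, f x ∈ commutator (G ⧸ rad G) := by
      intro x
      have e1 : ∀ z : G, z ∈ commutator G →
          QuotientGroup.mk' (rad G) z ∈ commutator (G ⧸ rad G) := by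
        intro z hz
        have e2 : QuotientGroup.mk' (rad G) z ∈
            (commutator G).map (QuotientGroup.mk' (rad G)) := Subgroup.mem_map_of_mem _ hz
        rw [commutator_def, Subgroup.map_commutator] at e2
        exact Subgroup.commutator_mono le_top le_top e2
      exact e1 _ x.2
    refine LFn.sub (H := commutator (G ⧸ rad G)) ((QuotientGroup.kerLift f).codRestrict
      (commutator (G ⧸ rad G)) ?_) ?_ hQ
    · intro q
      obtain ⟨x, rfl⟩ := QuotientGroup.mk_surjective q
      exact hr x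
    · intro a b hab
      apply QuotientGroup.kerLift_injective f
      exact congrArg Subtype.val hab

theorem mem_rad_three {m : ℕ} {G : Type u} [Group G] (h3 : ¬ 3 ∣ m)
    (h : ∀ x y : G, (k (x ^ m) y) ^ 3 = 1) (x y : G) : k (x ^ m) y ∈ rad G := by
  have hu := h x y
  obtain ⟨z, hz⟩ := exists_root (G := G) h3 (u := k (x ^ m) y) (by
    rw [show 9 = 3 * 3 by norm_num, pow_mul, hu, one_pow])
  refine rad_of_closure hu (fun g _ => ?_)
  rw [hz]
  exact h z g

theorem mem_rad_nine {m n : ℕ} {G : Type u} [Group G] (h3 : ¬ 3 ∣ m)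
    (h9 : ∀ x y : G, (k (x ^ m) y) ^ 9 = 1)
    (hW : ∀ (x : G) (l : List G), l.length = n →
      l.foldl (fun a y => (k a y) ^ 3) (x ^ m) = 1) (x y : G) : k (x ^ m) y ∈ rad G := by
  have hm9 : ¬ 9 ∣ m := fun h => h3 (Dvd.dvd.trans (by norm_num) h)
  have hu := h9 x y
  obtain ⟨z, hz⟩ := exists_root (G := G) h3 hu
  rw [hz]
  refine pow_mem hm9 h9 hW z ?_
  have e : (z ^ m) ^ 3 = (z ^ 3) ^ m := by rw [← pow_mul, ← pow_mul, mul_comm]
  rw [e]
  refine pow_mem hm9 h9 hW (z ^ 3) ?_
  rw [← e, ← hz, ← pow_mul, hu]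
  exact one_mem _

/-- both conclusions -/
theorem both {m : ℕ} {G : Type u} [Group G] (h : ∀ x y : G, k (x ^ m) y ∈ rad G)
    (hm : ∀ (K : Type u) [Group K], (∀ x : K, x ^ m = 1) → LFn K) :
    LFn (commutator G) ∧ ((∀ x : G, ∃ n : ℕ, 0 < n ∧ x ^ n = 1) → LFn G) := by
  have h1 := comm_lf_of_rad h hm
  refine ⟨h1, fun hp => ?_⟩
  refine Pool.Agent.H155.CT.lfn_of_periodic (commutator G) h1 le_rfl (fun g => ?_)
  obtain ⟨n, hn, hg⟩ := hp g
  exact ⟨n, hn, by rw [hg]; exact one_mem _⟩

end P

end Pool.Agent.H325
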