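import Pool.Agent.H325.M
import Pool.Agent.H325.N

/-!
# Elements of order three all of whose commutators have order three
-/

set_option autoImplicit false

open scoped commutatorElement

namespace Pool.Agent.H325

open Pool.Agent.R669 (Sw.k Sw.cj)
open Pool.Agent.R669.Sw
open Pool.Agent.W5h59.Bu (LFn)

universe u

variable {G : Type u} [Group G]

/-- left `3`-Engel elements of order three are in the radical -/
theorem engel_rad' {q : G} (q3 : q ^ 3 = 1) (h : ∀ g, Commute q (k q (Sw.cj q g))) :
    q ∈ rad G :=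
  sys_rad (Pm.sys q3 h) (Gen.sub _ (Or.inl (cl.self q)))

/-- the condition on one element -/
def H1 (a : G) : Prop := a ^ 3 = 1 ∧ ∀ g : G, (k a g) ^ 3 = 1

theorem H1.cls {a : G} (ha : H1 a) : Cls (cl a) := by
  refine ⟨cl.cj, ?_, ?_⟩
  · rintro _ ⟨g, rfl⟩
    exact cube_cj ha.1 g
  · intro x hx y hy
    obtain ⟨g, rfl⟩ := cl.cl x hx y hy
    rw [← k_eq]
    obtain ⟨h, rfl⟩ := hx
    have e : k (Sw.cj a h) g = Sw.cj (k a (h * g * h⁻¹)) h := by
      unfold k Sw.cj; group
    rw [e]
    exact cube_cj (ha.2 _) h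

theorem H1.cubes_rad {a : G} (ha : H1 a) (g : G) : (a * Sw.cj a g) ^ 3 ∈ rad G :=
  engel_rad' (ha.cls.cubes (cl.self a) ⟨g, rfl⟩).p3
    (fun h => ha.cls.left (cl.self a) ⟨g, rfl⟩ h)

/-- **an element `a` of order three such that all commutators `[a, g]` have order three lies in the
locally finite `3`-radical** -/
theorem H1.rad {a : G} (ha : H1 a) : a ∈ rad G := by
  set π := QuotientGroup.mk' (Pool.Agent.H325.rad G) with hπ
  have πcj : ∀ x y : G, π (Sw.cj x y) = Sw.cj (π x) (π y) := by
    intro x y; simp [Sw.cj]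
  have h1 : π a ∈ Pool.Agent.H325.rad (G ⧸ Pool.Agent.H325.rad G) := by
    apply engel_rad'
    · rw [← map_pow, ha.1, map_one]
    · intro g
      obtain ⟨g, rfl⟩ := QuotientGroup.mk'_surjective _ g
      have e : Sw.cj (π a) (QuotientGroup.mk' (Pool.Agent.H325.rad G) g) = π (Sw.cj a g) :=
        (πcj a g).symm
      rw [e]
      refine (trick (p := π a) (d := π (Sw.cj a g)) ?_ ?_ ?_ ?_).1
      · rw [← map_pow, ha.1, map_one]
      · rw [← map_pow, cube_cj ha.1 g, map_one]
      · rw [← map_mul, ← map_pow, hπ, QuotientGroup.mk'_apply, QuotientGroup.eq_one_iff]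
        exact ha.cubes_rad g
      · rw [← map_inv, ← map_mul, ← map_pow, ← k_eq, ha.2 g, map_one]
  rw [rad_quot G, Subgroup.mem_bot, hπ, QuotientGroup.mk'_apply, QuotientGroup.eq_one_iff] at h1
  exact h1

/-- it suffices to consider the commutators with the elements of the normal closure -/
theorem rad_of_closure {a : G} (h3 : a ^ 3 = 1)
    (h : ∀ g ∈ Subgroup.normalClosure {a}, (k a g) ^ 3 = 1) : a ∈ rad G := by
  set N := Subgroup.normalClosure {a} with hN
  have haN : a ∈ N := Subgroup.subset_normalClosure rfl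
  have hcN : ∀ x ∈ cl a, x ∈ N := by
    rintro _ ⟨g, rfl⟩
    have := Subgroup.Normal.conj_mem (inferInstance : N.Normal) a haN g⁻¹
    simpa [Sw.cj] using this
  have h1 : ∀ x : N, (x : G) ∈ cl a → x ∈ rad N := by
    rintro ⟨x, hx⟩ ⟨g, hg⟩
    apply H1.rad
    refine ⟨?_, ?_⟩
    · apply Subtype.ext
      show x ^ 3 = 1
      have hg' : x = Sw.cj a g := hg
      rw [hg']
      exact cube_cj h3 g
    · rintro ⟨y, hy⟩
      apply Subtype.ext
      show (k x y) ^ 3 = 1
      have hg' : x = Sw.cj a g := hg
      have e : k x y = Sw.cj (k a (Sw.cj y g⁻¹)) g := by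
        rw [hg']; unfold k Sw.cj; group
      rw [e]
      apply cube_cj
      apply h
      have := Subgroup.Normal.conj_mem (inferInstance : N.Normal) y hy g
      simpa [Sw.cj] using this
  have hM : (Subgroup.closure (cl a)).Normal := by
    constructor
    intro n hn g
    induction hn using Subgroup.closure_induction with
    | mem x hx =>
      apply Subgroup.subset_closure
      have := cl.cj x hx g⁻¹
      simpa [Sw.cj] using this
    | one => rw [mul_one, mul_inv_cancel]; exact one_mem _
    | mul x y _ _ h1 h2 =>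
      rw [show g * (x * y) * g⁻¹ = (g * x * g⁻¹) * (g * y * g⁻¹) by group]
      exact mul_mem h1 h2
    | inv x _ h1 =>
      rw [show g * x⁻¹ * g⁻¹ = (g * x * g⁻¹)⁻¹ by group]
      exact inv_mem h1
  have hle : Subgroup.closure (cl a) ≤ (rad N).map N.subtype := by
    rw [Subgroup.closure_le]
    intro x hx
    exact ⟨⟨x, hcN x hx⟩, h1 ⟨x, hcN x hx⟩ hx, rfl⟩
  have hL : LF3 ((rad N).map N.subtype) :=
    (rad_lf N).image (N.subtype.subgroupMap (rad N)) (N.subtype.subgroupMap_surjective (rad N))
  exact le_rad hM (LF3.mono hle hL) (Subgroup.subset_closure (cl.self a))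

/-- the same modulo the radical -/
theorem rad_step {a : G} (h3 : a ^ 3 ∈ rad G)
    (h : ∀ g ∈ Subgroup.normalClosure {a}, (k a g) ^ 3 ∈ rad G) : a ∈ rad G := by
  have hs := QuotientGroup.mk'_surjective (rad G)
  have h1 : QuotientGroup.mk' (rad G) a ∈ rad (G ⧸ rad G) := by
    apply rad_of_closure
    · rw [← map_pow, QuotientGroup.mk'_apply, QuotientGroup.eq_one_iff]
      exact h3
    · intro g hg
      have e0 : Subgroup.normalClosure {QuotientGroup.mk' (rad G) a} =
          (Subgroup.normalClosure {a}).map (QuotientGroup.mk' (rad G)) := by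
        rw [Subgroup.map_normalClosure _ _ hs, Set.image_singleton]
      rw [e0] at hg
      obtain ⟨g, hg, rfl⟩ := hg
      have e : k (QuotientGroup.mk' (rad G) a) (QuotientGroup.mk' (rad G) g) =
          QuotientGroup.mk' (rad G) (k a g) := by simp [k]
      rw [e, ← map_pow, QuotientGroup.mk'_apply, QuotientGroup.eq_one_iff]
      exact h g hg
  rw [rad_quot G, Subgroup.mem_bot, QuotientGroup.mk'_apply, QuotientGroup.eq_one_iff] at h1
  exact h1

/-- one step of a chain: cubing, or cubing a commutator -/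
def Sp (a b : G) : Prop := b = a ^ 3 ∨ ∃ g ∈ Subgroup.normalClosure {a}, b = (k a g) ^ 3

/-- an infinite chain of nontrivial elements -/
def Ch (f : ℕ → G) : Prop := ∀ n, f n ≠ 1 ∧ Sp (f n) (f (n + 1))

/-- outside of the radical there is always an infinite chain -/
theorem exists_chain {a : G} (ha : a ∉ rad G) : ∃ f : ℕ → G, f 0 = a ∧ Ch f := by
  have step : ∀ b : {b : G // b ∉ rad G}, ∃ c : {c : G // c ∉ rad G}, Sp b.1 c.1 := by
    rintro ⟨b, hb⟩
    by_contra hcon
    push Not at hcon
    apply hb
    apply rad_step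
    · by_contra h
      exact hcon ⟨b ^ 3, h⟩ (Or.inl rfl)
    · intro g hg
      by_contra h
      exact hcon ⟨_, h⟩ (Or.inr ⟨g, hg, rfl⟩)
  choose nx hnx using step
  let F : ℕ → {b : G // b ∉ rad G} := fun n => nx^[n] ⟨a, ha⟩
  refine ⟨fun n => (F n).1, rfl, ?_⟩
  intro n
  refine ⟨?_, ?_⟩
  · intro h
    have h' : (F n).1 = 1 := h
    apply (F n).2
    rw [h']
    exact one_mem _
  · have e : F (n + 1) = nx (F n) := Function.iterate_succ_apply' nx n ⟨a, ha⟩
    show Sp (F n).1 (F (n + 1)).1
    rw [e]
    exact hnx _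

/-- there are no infinite chains in nilpotent groups of exponent a power of three -/
theorem no_chain {r c : ℕ} (h : ∀ x : G, x ^ 3 ^ r = 1)
    (hc : (⊤ : Subgroup G).lowerCentralSeries c = ⊥) (f : ℕ → G) : ¬ Ch f := by
  -- all elements of the last terms
  have key : ∀ i, i ≤ c → ∀ j, ∀ f : ℕ → G, f 0 ∈ (⊤ : Subgroup G).lowerCentralSeries (c - i) →
      (f 0) ^ 3 ^ j = 1 → ¬ Ch f := by
    intro i
    induction i with
    | zero =>
      intro _ j f h0 _ hf
      rw [Nat.sub_zero, hc, Subgroup.mem_bot] at h0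
      exact (hf 0).1 h0
    | succ i ih =>
      intro hi j
      induction j with
      | zero =>
        intro f _ h1 hf
        rw [pow_zero, pow_one] at h1
        exact (hf 0).1 h1
      | succ j ihj =>
        intro f h0 h1 hf
        have hf' : Ch (fun n => f (n + 1)) := fun n => hf (n + 1)
        rcases (hf 0).2 with h2 | ⟨g, -, h2⟩
        · refine ihj (fun n => f (n + 1)) ?_ ?_ hf'
          · show f (0 + 1) ∈ _
            rw [h2]
            exact pow_mem h0 3
          · show f (0 + 1) ^ 3 ^ j = 1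
            rw [h2, ← pow_mul, ← pow_succ']
            exact h1
        · refine ih (by omega) r (fun n => f (n + 1)) ?_ (h _) hf'
          show f (0 + 1) ∈ _
          rw [h2]
          apply pow_mem
          have e : k (f 0) g = ⁅(f 0)⁻¹, g⁻¹⁆ := by
            rw [commutatorElement_def]; unfold k; group
          rw [e, show c - i = c - (i + 1) + 1 by omega]
          exact Subgroup.commutator_mem_commutator (inv_mem h0) (Subgroup.mem_top _)
  exact key c le_rfl r f (by rw [Nat.sub_self]; exact Subgroup.mem_top _) (h _)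

/-- if all `m`-th powers lie in the radical and `m` is good, then the group is locally finite -/
theorem lfn_of_rad {m : ℕ} (h : ∀ x : G, x ^ m ∈ rad G)
    (hm : ∀ (K : Type u) [Group K], (∀ x : K, x ^ m = 1) → LFn K) : LFn G := by
  refine LFn.ext (rad G) (rad_lf G).1 (hm _ ?_)
  intro x
  obtain ⟨x, rfl⟩ := QuotientGroup.mk'_surjective _ x
  rw [← map_pow, QuotientGroup.mk'_apply, QuotientGroup.eq_one_iff]
  exact h x

/-- a locally finite `3`-group in which there is no infinite chain outside of the radical -/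
theorem lf3_of_no_chain (h : ∀ f : ℕ → G, ¬ Ch f) : LF3 G := by
  have h1 : rad G = ⊤ := by
    rw [eq_top_iff]
    intro a _
    by_contra ha
    obtain ⟨f, -, hf⟩ := exists_chain ha
    exact h f hf
  have h2 := rad_lf G
  rw [h1] at h2
  exact h2.image (Subgroup.topEquiv : (⊤ : Subgroup G) ≃* G).toMonoidHom
    (Subgroup.topEquiv : (⊤ : Subgroup G) ≃* G).surjective

end Pool.Agent.H325
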